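import Pool.Agent.Helper63.PG.Basic

/-! # The on-line algorithm: definitions

Vertices are natural numbers, vertex `v` arrives at time `v`; everything which is attached to `v`
depends only on `pre G v`, the graph on the vertices `≤ v`.
-/

set_option autoImplicit false

namespace Pool.Agent.Helper63.PG

open Pool.Agent.Helper63.OC Pool.Agent.Helper24.OCM

/-- at time `t` the distance of `a` and `b` is at most `r` -/
def nr (G : SimpleGraph ℕ) (t a b r : ℕ) : Prop := ∃ p : (pre G t).Walk a b, p.length ≤ r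

theorem nr_refl (G : SimpleGraph ℕ) (t a r : ℕ) : nr G t a a r :=
  ⟨SimpleGraph.Walk.nil, by simp⟩

theorem nr_symm {G : SimpleGraph ℕ} {t a b r : ℕ} (h : nr G t a b r) : nr G t b a r := by
  obtain ⟨p, hp⟩ := h
  exact ⟨p.reverse, by simpa using hp⟩

theorem nr_trans {G : SimpleGraph ℕ} {t a b c r s : ℕ} (h : nr G t a b r) (h' : nr G t b c s) :
    nr G t a c (r + s) := by
  obtain ⟨p, hp⟩ := h
  obtain ⟨q, hq⟩ := h'
  exact ⟨p.append q, by rw [SimpleGraph.Walk.length_append]; omega⟩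

theorem nr_mono {G : SimpleGraph ℕ} {t a b r s : ℕ} (h : nr G t a b r) (hrs : r ≤ s) :
    nr G t a b s := by
  obtain ⟨p, hp⟩ := h
  exact ⟨p, hp.trans hrs⟩

theorem pre_le {G : SimpleGraph ℕ} {s t : ℕ} (h : t ≤ s) : pre G t ≤ pre G s :=
  fun _ _ hab => pre_mono h hab

theorem nr_time {G : SimpleGraph ℕ} {s t a b r : ℕ} (h : nr G t a b r) (hts : t ≤ s) :
    nr G s a b r := by
  obtain ⟨p, hp⟩ := h
  exact ⟨p.mapLe (pre_le hts), by rw [SimpleGraph.Walk.length_mapLe]; exact hp⟩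

theorem nr_adj {G : SimpleGraph ℕ} {t a b : ℕ} (h : G.Adj a b) (ha : a ≤ t) (hb : b ≤ t) :
    nr G t a b 1 :=
  ⟨SimpleGraph.Walk.cons (show (pre G t).Adj a b from ⟨ha, hb, h⟩) SimpleGraph.Walk.nil, by simp⟩

theorem nr_pre {G : SimpleGraph ℕ} {s t a b r : ℕ} (h : t ≤ s) :
    nr (pre G s) t a b r ↔ nr G t a b r := by
  unfold nr
  rw [pre_pre h]

theorem nr_le {G : SimpleGraph ℕ} {t a b r : ℕ} (h : nr G t a b r) (ha : a ≤ t) : b ≤ t := by
  obtain ⟨p, -⟩ := h
  exact reach_le p.reachable ha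

/-- the ball around `v` at time `v` -/
def bal (G : SimpleGraph ℕ) (v r : ℕ) : Set ℕ := {u | nr G v v u r}

theorem bal_sub (G : SimpleGraph ℕ) (v r : ℕ) : bal G v r ⊆ Set.Iic v := fun _ hu => nr_le hu le_rfl

theorem bal_fin (G : SimpleGraph ℕ) (v r : ℕ) : (bal G v r).Finite :=
  (Set.finite_Iic v).subset (bal_sub G v r)

theorem bal_pre {G : SimpleGraph ℕ} {s v r : ℕ} (h : v ≤ s) : bal (pre G s) v r = bal G v r := by
  ext u
  exact nr_pre h

theorem self_mem_bal (G : SimpleGraph ℕ) (v r : ℕ) : v ∈ bal G v r := nr_refl G v v r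

/-- the radii -/
def rr : ℕ → ℕ
  | 0 => 0
  | (i + 1) => 7 * rr i + 3

/-- the first scale with slow growth -/
noncomputable def ci (K : ℕ) (G : SimpleGraph ℕ) (v : ℕ) : ℕ :=
  sInf {i | (bal G v (rr (i + 1))).ncard ≤ K * (bal G v (rr i)).ncard}

/-- the dyadic size of the ball -/
noncomputable def cj (K : ℕ) (G : SimpleGraph ℕ) (v : ℕ) : ℕ :=
  Nat.log 2 (bal G v (rr (ci K G v))).ncard

/-- the class -/
noncomputable def cl (K : ℕ) (G : SimpleGraph ℕ) (v : ℕ) : ℕ × ℕ := (ci K G v, cj K G v)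

/-- the ball of `v` at time `v` -/
def Bl (K : ℕ) (G : SimpleGraph ℕ) (v : ℕ) : Set ℕ := bal G v (rr (ci K G v))

/-- `v` is an anchor: its ball is disjoint from the balls of the earlier anchors of its class -/
def isAnc (K : ℕ) (G : SimpleGraph ℕ) (v : ℕ) : Prop :=
  ∀ x, (_ : x < v) → isAnc K G x → cl K G x = cl K G v → Disjoint (Bl K G x) (Bl K G v)
termination_by v

/-- the anchor of `v` -/
noncomputable def anc (K : ℕ) (G : SimpleGraph ℕ) (v : ℕ) : ℕ :=
  sInf {x | x ≤ v ∧ isAnc K G x ∧ cl K G x = cl K G v ∧ ¬ Disjoint (Bl K G x) (Bl K G v)}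

/-- `x` is an anchor near to `w` -/
def near (K : ℕ) (G : SimpleGraph ℕ) (w x : ℕ) : Prop :=
  x ≤ w ∧ isAnc K G x ∧ cl K G x = cl K G w ∧ nr G w w x (2 * rr (ci K G w) + 1)

/-- the graph on the anchors at time `v` -/
def ng (K : ℕ) (G : SimpleGraph ℕ) (v x y : ℕ) : Prop := ∃ w ≤ v, near K G w x ∧ near K G w y

/-- the colour which separates different anchors -/
noncomputable def kap (K : ℕ) (G : SimpleGraph ℕ) (v : ℕ) : ℕ :=
  sInf {c | ∀ u, (_ : u < v) → cl K G u = cl K G v → anc K G u ≠ anc K G v →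
    ng K G v (anc K G u) (anc K G v) → kap K G u ≠ c}
termination_by v

/-- the first label -/
noncomputable def lab1 (K : ℕ) (G : SimpleGraph ℕ) (v : ℕ) : (ℕ × ℕ) × ℕ :=
  (cl K G v, kap K G v)

/-! ### dyadic time stamps -/

/-- `v` has an earlier neighbour -/
def hasp (H : SimpleGraph ℕ) (v : ℕ) : Prop := ∃ u < v, H.Adj v u

/-- the first neighbour -/
noncomputable def fn (H : SimpleGraph ℕ) (v : ℕ) : ℕ := sInf {u | u < v ∧ H.Adj v u}

/-- the largest power of two which divides some `y + 1` with `fn v ≤ y < v` -/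
noncomputable def te (H : SimpleGraph ℕ) (v : ℕ) : ℕ :=
  sSup {e | ∃ y, fn H v ≤ y ∧ y < v ∧ 2 ^ e ∣ y + 1}

/-- the time stamp -/
noncomputable def tau (H : SimpleGraph ℕ) (v : ℕ) : ℕ :=
  sInf {y | fn H v ≤ y ∧ y < v ∧ 2 ^ te H v ∣ y + 1}

open Classical in
/-- the second label -/
noncomputable def lab2 (H : SimpleGraph ℕ) (v : ℕ) : ℕ := if hasp H v then te H v + 1 else 0

/-! ### layers of a static ball -/

open Classical in
/-- a fixed proper colouring of `pre G τ` -/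
noncomputable def kc (k : ℕ) (G : SimpleGraph ℕ) (τ : ℕ) : ℕ → ℕ :=
  if h : (pre G τ).Colorable k then fun w => (h.some w).val else fun _ => 0

/-- the first layer around `x` in `pre G τ` seen by `v` -/
noncomputable def lay (G : SimpleGraph ℕ) (x τ v : ℕ) : ℕ :=
  sInf {r | ∃ w, w ≤ τ ∧ G.Adj v w ∧ nr G τ x w r}

/-- the first colour seen in this layer -/
noncomputable def cc (k : ℕ) (G : SimpleGraph ℕ) (x τ v : ℕ) : ℕ :=
  sInf {c | ∃ w, w ≤ τ ∧ G.Adj v w ∧ nr G τ x w (lay G x τ v) ∧ kc k G τ w = c}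

/-- the neighbours of `v` of this colour in this layer -/
def TT (k : ℕ) (G : SimpleGraph ℕ) (x τ v : ℕ) : Set ℕ :=
  {w | w ≤ τ ∧ G.Adj v w ∧ nr G τ x w (lay G x τ v) ∧ kc k G τ w = cc k G x τ v}

/-! ### the algorithm -/

/-- the edges inside the classes of the first label -/
noncomputable def H1 (K : ℕ) (G : SimpleGraph ℕ) : SimpleGraph ℕ := mono G (lab1 K G)

/-- the time stamp of `v` -/
noncomputable def tt (K : ℕ) (G : SimpleGraph ℕ) (v : ℕ) : ℕ := tau (H1 K G) v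

/-- labels -/
abbrev Lab : Type := ((ℕ × ℕ) × ℕ) × ℕ × ℕ × ℕ

open Classical in
/-- the label of `v` -/
noncomputable def lab (K k : ℕ) (G : SimpleGraph ℕ) (v : ℕ) : Lab :=
  (lab1 K G v, lab2 (H1 K G) v, if hasp (H1 K G) v then
    (lay G (anc K G v) (tt K G v) v, cc k G (anc K G v) (tt K G v) v) else (0, 0))

/-- the edges inside the label classes -/
noncomputable def G3 (K k : ℕ) (G : SimpleGraph ℕ) : SimpleGraph ℕ := mono G (lab K k G)

/-- the graph `Γ` -/
noncomputable def Gm (K k : ℕ) (G : SimpleGraph ℕ) : SimpleGraph ℕ where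
  Adj u v := (G3 K k G).Adj u v ∧ ∃ w, w ∈ TT k G (anc K G u) (tt K G u) u ∧
    w ∈ TT k G (anc K G v) (tt K G v) v
  symm := ⟨fun _ _ ⟨h, w, h1, h2⟩ => ⟨h.symm, w, h2, h1⟩⟩
  loopless := ⟨fun _ h => (G3 K k G).loopless.irrefl _ h.1⟩

/-- the colour of `v`; the first argument is the clique number -/
noncomputable def col (K k : ℕ) : ℕ → SimpleGraph ℕ → ℕ → List (Lab × List (ℕ × ℕ))
  | 0, _, _ => []
  | 1, _, _ => []
  | (w + 2), G, v =>
    (lab K k G v, fcol k (mono (G3 K k G) (col K k (w + 1) (Gm K k G))) v) ::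
      col K k (w + 1) (Gm K k G) v

/-! ### notions used in the statements of the modules -/

/-- conclusion of the clustering part: anchors -/
def AncS (K : ℕ) (G : SimpleGraph ℕ) : Prop :=
  (∀ v, anc K G v ≤ v ∧ nr G v v (anc K G v) (2 * rr (ci K G v))) ∧
  (∀ u v, u < v → G.Adj u v → lab1 K G u = lab1 K G v → anc K G u = anc K G v)

/-- conclusion of the time stamp part -/
def TauS (H : SimpleGraph ℕ) : Prop :=
  (∀ v, hasp H v → (fn H v < v ∧ H.Adj v (fn H v)) ∧ fn H v ≤ tau H v ∧ tau H v < v) ∧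
  (∀ u v, u < v → H.Adj u v → lab2 H u = lab2 H v →
    hasp H u ∧ hasp H v ∧ tau H u = tau H v)

/-- conclusion of the part on one layer -/
def OneLayer : Prop :=
  ∀ (G : SimpleGraph ℕ) (R T U : Set ℕ), Lay G R T U →
    NOH (Gam G T U) ∧
    (∀ Q : Finset ℕ, Q.Nonempty → (∀ u ∈ Q, u ∈ U) →
      (∀ u ∈ Q, ∀ v ∈ Q, u ≠ v → (Gam G T U).Adj u v) → ∃ t ∈ T, ∀ u ∈ Q, G.Adj t u) ∧
    (∀ W : Set ℕ, W ⊆ U → (∀ u ∈ W, ∀ v ∈ W, G.Adj u v → ¬ Cm G T u v) →
      ∀ L : ℕ, Odd L → 5 ≤ L → ∀ f : ZMod L → ℕ, Function.Injective f → (∀ i, f i ∈ W) →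
      (∀ i, G.Adj (f i) (f (i + 1))) →
      ∃ i j k l : ZMod L, IsChord G f i j ∧ IsChord G f k l ∧ s(i, j) ≠ s(k, l))

/-- what is known about the static neighbourhood of `v` -/
structure Vs (K k : ℕ) (G : SimpleGraph ℕ) (v : ℕ) : Prop where
  ancle : anc K G v ≤ tt K G v
  ttlt : tt K G v < v
  layle : lay G (anc K G v) (tt K G v) v ≤ 2 * rr (ci K G v)
  laymin : ∀ w r, w ≤ tt K G v → G.Adj v w → nr G (tt K G v) (anc K G v) w r →
    lay G (anc K G v) (tt K G v) v ≤ r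
  ne : (TT k G (anc K G v) (tt K G v) v).Nonempty

/-- the vertices with given data -/
def UU (K k : ℕ) (G : SimpleGraph ℕ) (x τ i c : ℕ) : Set ℕ :=
  {v | hasp (H1 K G) v ∧ anc K G v = x ∧ tt K G v = τ ∧ lay G x τ v = i ∧ cc k G x τ v = c}

/-- the possible labels -/
def LabF (d K k n : ℕ) : Finset Lab :=
  ((Finset.range d ×ˢ Finset.range (Nat.log 2 n + 1)) ×ˢ Finset.range (4 * K ^ 2)) ×ˢ
    Finset.range (Nat.log 2 n + 2) ×ˢ Finset.range (rr d) ×ˢ Finset.range (k + 1)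

open Classical in
/-- the possible colours -/
noncomputable def ColF (d K k n : ℕ) : ℕ → Finset (List (Lab × List (ℕ × ℕ)))
  | 0 => {[]}
  | (m + 1) => ((LabF d K k n ×ˢ F2 n (k - 1)) ×ˢ ColF d K k n m).image fun p => p.1 :: p.2

end Pool.Agent.Helper63.PG
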