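import Pool.Agent.Helper63.PG.Alg
import Pool.Agent.Helper29.PG.M_ANC
import Pool.Agent.Helper29.PG.M_SEP
import Pool.Agent.Helper29.PG.M_GRO
import Pool.Agent.Helper29.PG.M_KAP
import Pool.Agent.Helper41.PG.M_GCL
import Pool.Agent.Helper41.PG.M_GNO
import Pool.Agent.Helper41.PG.M_SAM
import Pool.Agent.Helper41.PG.M_VSP
import Pool.Agent.Helper47.PG.M_DEG
import Pool.Agent.Helper64.PG.M_CMM
import Pool.Agent.Helper64.PG.M_LMM
import Pool.Agent.Helper64.PG.M_LO2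
import Pool.Agent.Helper64.PG.M_OHL
import Pool.Agent.Helper70.PG.M_HIS
import Pool.Agent.Helper72.PG.M_GMR
import Pool.Agent.Helper72.PG.M_LOC
import Pool.Agent.Helper72.PG.M_PER
import Pool.Agent.Helper74.PG.M_CLO3
import Pool.Agent.Helper74.PG.M_NUM
import Pool.Agent.Helper8.PG.M_TAU
import Pool.Agent.Helper81.PG.M_PRO
import Pool.Agent.Helper89.PG.M_TEQ

/-! # Assembly, part 1: the algorithm, given the part on one layer -/

set_option autoImplicit false

namespace Pool.Agent.Helper63.PG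

open Pool.Agent.Helper63.OC Pool.Agent.Helper24.OCM

theorem ancS (K : ℕ) (G : SimpleGraph ℕ) : AncS K G := by
  refine ⟨fun v => ?_, fun u v huv hadj hl => ?_⟩
  · obtain ⟨h1, -, -, h4⟩ := Helper29.PG.hANC K G v
    exact ⟨h1, h4⟩
  · exact Helper29.PG.hSEP (Helper29.PG.hANC K G) huv hadj hl

theorem tauS (H : SimpleGraph ℕ) : TauS H := by
  refine ⟨fun v hv => ?_, fun u v huv hadj hl => ?_⟩
  · obtain ⟨h1, h2, h3, -⟩ := Helper8.PG.hTAU hv
    exact ⟨h1, h2, h3⟩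
  · exact Helper89.PG.hTEQ (fun v hv => Helper8.PG.hTAU hv) huv hadj hl

theorem vs (K k : ℕ) (G : SimpleGraph ℕ) (v : ℕ) (h : hasp (H1 K G) v) : Vs K k G v :=
  Helper41.PG.hVSP (ancS K G) (tauS _) h

theorem same (K k : ℕ) (G : SimpleGraph ℕ) (u v : ℕ) (hadj : (G3 K k G).Adj u v) :
    hasp (H1 K G) u ∧ hasp (H1 K G) v ∧ anc K G u = anc K G v ∧ tt K G u = tt K G v ∧
    lay G (anc K G u) (tt K G u) u = lay G (anc K G v) (tt K G v) v ∧
    cc k G (anc K G u) (tt K G u) u = cc k G (anc K G v) (tt K G v) v :=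
  Helper41.PG.hSAM (ancS K G) (tauS _) hadj

theorem kap_lt {K d n : ℕ} (hK : 1 ≤ K) (hd : 0 < d) (hn : n ≤ K ^ d) (G : SimpleGraph ℕ) {v : ℕ}
    (hv : v < n) : kap K G v < 4 * K ^ 2 := by
  have hg : ∀ u < n, (bal G u (rr (ci K G u + 1))).ncard ≤ K * (bal G u (rr (ci K G u))).ncard :=
    fun u hu => (Helper29.PG.hGRO hd hn G hu).2
  have hdeg : ∀ u ≤ v, ∀ x, {y | y ≠ x ∧ ng K G u x y}.Finite ∧
      {y | y ≠ x ∧ ng K G u x y}.ncard + 2 ≤ 2 * K := fun u hu x =>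
    Helper47.PG.hDEG hK (fun w hw => hg w (by omega)) x
  exact Helper29.PG.hKAP hK (hdeg v le_rfl)
    (fun x => Helper70.PG.hHIS (Helper29.PG.hANC K G) x v (fun u hu => (hdeg u hu x).1))

theorem lab_in {K d n : ℕ} (k : ℕ) (hK : 1 ≤ K) (hd : 0 < d) (hn : n ≤ K ^ d)
    (G : SimpleGraph ℕ) {v : ℕ} (hv : v < n) : lab K k G v ∈ LabF d K k n :=
  Helper64.PG.hLMM hd hv (Helper29.PG.hGRO hd hn G hv).1 (kap_lt hK hd hn G hv)
    (fun h => (Helper8.PG.hTAU h).2.2.2.2.1) (fun h => vs K k G v h)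

theorem col_local (K k : ℕ) (w : ℕ) (G : SimpleGraph ℕ) (s t : ℕ) (h : t ≤ s) :
    col K k w (pre G s) t = col K k w G t := by
  refine Helper74.PG.hCLO3 K k ?_ ?_ ?_ ?_ w G s t h
  · intro G s
    obtain ⟨-, -, -, h4, -, -, -, h8⟩ := Helper72.PG.hLOC (K := K) (G := G) (s := s)
    exact ⟨h4, h8⟩
  · intro H s
    obtain ⟨h1, -, -, h4, h5⟩ := Helper64.PG.hLO2 (H := H) (s := s)
    exact ⟨h1, h4, h5⟩
  · intro G v hv
    exact vs K k G v hv
  · intro G u v huv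
    obtain ⟨h1, h2, -⟩ := same K k G u v huv
    exact ⟨h1, h2⟩

section

variable (hO : OneLayer) (hLay : ∀ (K k : ℕ) (G : SimpleGraph ℕ), G.Colorable k → NOH G →
    ∀ x τ i c, Lay G {w | w ≤ τ ∧ nr G τ x w i}
      {w | w ≤ τ ∧ nr G τ x w (i + 1) ∧ ¬ nr G τ x w i ∧ kc k G τ w = c}
      (UU K k G x τ (i + 1) c))
  (hMey : ∀ (K k : ℕ) (G : SimpleGraph ℕ) (c0 : ℕ → List (Lab × List (ℕ × ℕ))),
    G.Colorable k → NOH G →
    (∀ u v, (Gm K k G).Adj u v → c0 u ≠ c0 v) → IsMeyniel (mono (G3 K k G) c0))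

include hO hLay hMey

theorem proper (K k w : ℕ) (G : SimpleGraph ℕ) (hc : G.Colorable k) (hN : NOH G)
    (hF : G.CliqueFree (w + 1)) (a b : ℕ) (hab : G.Adj a b) :
    col K k w G a ≠ col K k w G b := by
  refine Helper81.PG.hPRO K k ?_ (fun G c0 h1 h2 h3 => hMey K k G c0 h1 h2 h3) w G hc hN hF a b hab
  intro G w hc hN hF
  exact ⟨Helper41.PG.hGNO hN hO (same K k G) (hLay K k G hc hN)
      (Helper72.PG.hGMR (fun v hv => vs K k G v hv)),
    Helper41.PG.hGCL hF hO (same K k G) (hLay K k G hc hN)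
      (Helper72.PG.hGMR (fun v hv => vs K k G v hv))⟩

end

/-- the on-line algorithm -/
noncomputable def algo (K k : ℕ) (m : ℕ) (H : SimpleGraph (Fin m)) : ℕ :=
  Encodable.encode (col K k k (liftG H) (m - 1))

theorem algo_eq {K n k : ℕ} (G : SimpleGraph (Fin n)) (i : Fin n) :
    algo K k (i.val + 1) (SimpleGraph.comap (Fin.castLE (Nat.succ_le_of_lt i.isLt)) G) =
      Encodable.encode (col K k k (liftG G) i.val) := by
  unfold algo
  rw [liftG_comap G i.val i.isLt]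
  congr 1
  exact col_local K k k _ _ _ le_rfl

theorem liftG_colorable {n k : ℕ} (G : SimpleGraph (Fin n)) (hk : 1 ≤ k) (hG : G.Colorable k) :
    (liftG G).Colorable k := by
  obtain ⟨c⟩ := hG
  refine ⟨SimpleGraph.Coloring.mk (fun a => if h : a < n then c ⟨a, h⟩ else ⟨0, hk⟩) ?_⟩
  rintro a b ⟨ha, hb, h⟩
  simp only [ha, hb, dif_pos]
  exact c.valid h

/-- the main theorem, given properness -/
theorem main_of (hprop : ∀ (K k w : ℕ) (G : SimpleGraph ℕ), G.Colorable k → NOH G →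
      G.CliqueFree (w + 1) → ∀ a b, G.Adj a b → col K k w G a ≠ col K k w G b) (k : ℕ) :
    ∃ N0 : ℕ, ∀ n : ℕ, N0 ≤ n → ∃ A : (m : ℕ) → SimpleGraph (Fin m) → ℕ,
      ∀ G : SimpleGraph (Fin n), G.Colorable k → NOH (liftG G) →
      (∀ i j : Fin n, G.Adj i j →
        A (i.val + 1) (SimpleGraph.comap (Fin.castLE (Nat.succ_le_of_lt i.isLt)) G) ≠
        A (j.val + 1) (SimpleGraph.comap (Fin.castLE (Nat.succ_le_of_lt j.isLt)) G)) ∧
      (((Finset.univ.image (fun i : Fin n =>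
        A (i.val + 1) (SimpleGraph.comap (Fin.castLE (Nat.succ_le_of_lt i.isLt)) G))).card : ℝ)
        ≤ Real.exp (5 * k * Real.sqrt (Real.log n))) := by
  obtain ⟨N0, hN0⟩ := Helper74.PG.hNUM k
  refine ⟨max N0 1, fun n hn => ?_⟩
  obtain ⟨h1, h2⟩ := hN0 n (le_trans (le_max_left _ _) hn)
  have hn1 : 1 ≤ n := le_trans (le_max_right _ _) hn
  set d := Nat.sqrt (Nat.log 2 n + 1) + 1 with hd
  refine ⟨algo (2 ^ d) k, fun G hG hN => ?_⟩
  have hk : 1 ≤ k := by
    rcases Nat.eq_zero_or_pos k with h | h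
    · subst h
      obtain ⟨c⟩ := hG
      exact (c ⟨0, hn1⟩).elim0
    · exact h
  have hc := liftG_colorable G hk hG
  have hF := liftG_free G hk hG
  constructor
  · intro i j hij
    rw [algo_eq, algo_eq]
    intro h
    have h' := Encodable.encode_injective h
    exact hprop _ k k _ hc hN hF i.val j.val ⟨i.isLt, j.isLt, hij⟩ h'
  · obtain ⟨h3, h4⟩ := Helper64.PG.hCMM d (2 ^ d) k n
      (fun G v hv => lab_in k (Nat.one_le_two_pow) (by omega) h1 G hv)
    have hsub : (Finset.univ.image (fun i : Fin n =>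
        algo (2 ^ d) k (i.val + 1)
          (SimpleGraph.comap (Fin.castLE (Nat.succ_le_of_lt i.isLt)) G))) ⊆
        (ColF d (2 ^ d) k n (k - 1)).image Encodable.encode := by
      intro x hx
      rw [Finset.mem_image] at hx
      obtain ⟨i, -, rfl⟩ := hx
      rw [algo_eq]
      exact Finset.mem_image_of_mem _ (h3 k _ i.val i.isLt)
    refine le_trans ?_ h2
    exact_mod_cast (Finset.card_le_card hsub).trans (Finset.card_image_le.trans (h4 (k - 1)))

end Pool.Agent.Helper63.PG
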