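import Pool.Agent.Helper63.PG.Tool2

/-! # Module QLM: the left extension -/

set_option autoImplicit false

namespace Pool.Agent.Helper63.PG

variable {V : Type*}

/-- facts about the hole `x c, ..., x d` -/
theorem hole_facts {G : SimpleGraph V} {T U : Set V} {π : V → V → ℕ} (hN : NOH G)
    (hP : PRule G T U π) (hS : LemS G T U) {x : ℕ → V} {l c d : ℕ} (hx : GIP G T U x l)
    (hcd : c + 2 ≤ d) (hd : d ≤ l) (hadj : G.Adj (x c) (x d))
    (hmin : ∀ i j, c ≤ i → i + 2 ≤ j → j ≤ d → G.Adj (x i) (x j) → i = c ∧ j = d) :
    c + 3 ≤ d ∧ (d - c) % 2 = 1 ∧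
    (∀ w ∈ T, ∀ m, c ≤ m → m ≤ d → G.Adj w (x m) →
      ∃ i, c ≤ i ∧ i < d ∧ ∀ j, c ≤ j → j ≤ d → (G.Adj w (x j) ↔ j = i ∨ j = i + 1)) ∧
    (∀ i, c ≤ i → i < d → ∃ t ∈ T, ∀ j, c ≤ j → j ≤ d → (G.Adj t (x j) ↔ j = i ∨ j = i + 1)) ∧
    (∀ i j, c ≤ i → i < j → j ≤ d → (G.Adj (x i) (x j) ↔ j = i + 1 ∨ (i = c ∧ j = d))) := by
  obtain ⟨hxU, hxG⟩ := hx
  have hcm : ∀ i, i + 1 ≤ l → G.Adj (x i) (x (i + 1)) ∧ Cm G T (x i) (x (i + 1)) :=
    fun i hi => (hxG i (i + 1) (by omega) hi).2 rfl
  have h3 : c + 3 ≤ d := by
    by_contra hcon
    have e : d = c + 2 := by omega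
    subst e
    obtain ⟨t, ht, h1, -, h2⟩ := closure' hP (hxU c (by omega)) (hxU (c + 1) (by omega))
      (hxU (c + 2) (by omega)) hadj (hcm c (by omega)).2 (hcm (c + 1) (by omega)).2
    have := (hxG c (c + 2) (by omega) hd).1 ⟨hadj, t, ht, h1, h2⟩
    omega
  have hadjs : ∀ i j, c ≤ i → i < j → j ≤ d →
      (G.Adj (x i) (x j) ↔ j = i + 1 ∨ (i = c ∧ j = d)) := by
    intro i j hi hij hj
    constructor
    · intro h
      by_cases e : j = i + 1
      · exact Or.inl e
      · exact Or.inr (hmin i j hi (by omega) hj h)
    · rintro (e | ⟨e1, e2⟩)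
      · subst e
        exact (hcm i (by omega)).1
      · subst e1; subst e2; exact hadj
  have hole : Hol G (fun i => x (c + i)) (d - c + 1) := by
    intro i j hij hj
    show G.Adj (x (c + i)) (x (c + j)) ↔ _
    rw [hadjs _ _ (by omega) (by omega) (by omega)]
    omega
  have hodd : (d - c) % 2 = 1 := by
    have := hN.even hole (by omega)
    rw [Nat.even_iff] at this
    omega
  have hsee : ∀ w ∈ T, ∀ m, c ≤ m → m ≤ d → G.Adj w (x m) →
      ∃ i, c ≤ i ∧ i < d ∧ ∀ j, c ≤ j → j ≤ d → (G.Adj w (x j) ↔ j = i ∨ j = i + 1) := by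
    intro w hw m hm1 hm2 hwm
    obtain ⟨i, hi, hi2⟩ := hS (fun i => x (c + i)) (d - c) (by omega) hole
      (fun i hi => hxU _ (by omega)) (fun i hi => (hcm (c + i) (by omega)).2) (by
        intro h
        simp only [Nat.add_zero, Nat.add_sub_cancel' (by omega : c ≤ d)] at h
        have := (hxG c d (by omega) hd).1 ⟨hadj, h⟩
        omega) w hw (m - c) (by omega) (by
        show G.Adj w (x (c + (m - c)))
        rwa [Nat.add_sub_cancel' hm1])
    refine ⟨c + i, by omega, by omega, fun j hj1 hj2 => ?_⟩
    have := hi2 (j - c) (by omega)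
    simp only [Nat.add_sub_cancel' hj1] at this
    rw [this]
    omega
  refine ⟨h3, hodd, hsee, ?_, hadjs⟩
  intro i hi1 hi2
  obtain ⟨-, t, ht, h1, h2⟩ := hcm i (by omega)
  obtain ⟨i', h1', h2', h3'⟩ := hsee t ht i hi1 (by omega) h1
  have e1 := (h3' i hi1 (by omega)).1 h1
  have e2 := (h3' (i + 1) (by omega) (by omega)).1 h2
  have e : i = i' := by omega
  subst e
  exact ⟨t, ht, h3'⟩

theorem qleft {G : SimpleGraph V} {T U : Set V} {π : V → V → ℕ} (hN : NOH G)
    (hP : PRule G T U π) (hS : LemS G T U) {x : ℕ → V} {l c d : ℕ} (hx : GIP G T U x l)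
    (hcd : c + 2 ≤ d) (hd : d ≤ l) (hadj : G.Adj (x c) (x d))
    (hmin : ∀ i j, c ≤ i → i + 2 ≤ j → j ≤ d → G.Adj (x i) (x j) → i = c ∧ j = d) :
    LeftExt G T x c d := by
  obtain ⟨h3, hodd, hsee, hex, hadjs⟩ := hole_facts hN hP hS hx hcd hd hadj hmin
  obtain ⟨hxU, hxG⟩ := hx
  have hcm : ∀ i, i + 1 ≤ l → G.Adj (x i) (x (i + 1)) ∧ Cm G T (x i) (x (i + 1)) :=
    fun i hi => (hxG i (i + 1) (by omega) hi).2 rfl
  -- no common neighbour for a chord
  have hno : ∀ i j, i + 2 ≤ j → j ≤ l → G.Adj (x i) (x j) → ∀ t ∈ T, G.Adj t (x i) →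
      ¬ G.Adj t (x j) := by
    intro i j hij hj h t ht h1 h2
    have := (hxG i j (by omega) hj).1 ⟨h, t, ht, h1, h2⟩
    omega
  have key : ∀ n j, j + n + 1 = c → (∀ m, j + 2 ≤ m → m ≤ d → ¬ G.Adj (x j) (x m)) ∧
      (∀ t ∈ T, G.Adj t (x j) → G.Adj t (x c) ∧ G.Adj t (x (c + 1))) := by
    intro n
    induction n using Nat.strong_induction_on with
    | _ n IH =>
    intro j hj
    have IH' : ∀ j', j < j' → j' < c → (∀ m, j' + 2 ≤ m → m ≤ d → ¬ G.Adj (x j') (x m)) ∧
        (∀ t ∈ T, G.Adj t (x j') → G.Adj t (x c) ∧ G.Adj t (x (c + 1))) :=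
      fun j' h1 h2 => IH (c - j' - 1) (by omega) j' (by omega)
    obtain ⟨-, u, hu, huj, huj1⟩ := hcm j (by omega)
    have huc : G.Adj u (x c) := by
      rcases Nat.lt_or_ge (j + 1) c with h | h
      · exact ((IH' (j + 1) (by omega) h).2 u hu huj1).1
      · have e : j + 1 = c := by omega
        rwa [e] at huj1
    have hux : ∀ m, c ≤ m → m ≤ d → (G.Adj u (x m) ↔ m = c ∨ m = c + 1) := by
      obtain ⟨i, hi1, hi2, hi3⟩ := hsee u hu c le_rfl (by omega) huc
      have := (hi3 c le_rfl (by omega)).1 huc
      have e : i = c := by omega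
      rwa [e] at hi3
    -- (1)
    have P1 : ∀ m, j + 2 ≤ m → m ≤ d → ¬ G.Adj (x j) (x m) := by
      intro m
      induction m using Nat.strong_induction_on with
      | _ m ihm =>
      intro hm1 hm2 hjm
      have hΓ : ∀ t ∈ T, G.Adj t (x j) → ¬ G.Adj t (x m) := hno j m hm1 (by omega) hjm
      have hum : ¬ G.Adj u (x m) := hΓ u hu huj
      rcases Nat.lt_or_ge m c with hmc | hmc
      · obtain ⟨-, s, hs, hsm, -⟩ := hcm m (by omega)
        have hsc := ((IH' m (by omega) hmc).2 s hs hsm).1
        have hsj : ¬ G.Adj s (x j) := fun h => hΓ s hs h hsm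
        have hsu : s ≠ u := by
          rintro rfl
          exact hum hsm
        have e1 := pr_zero hP hs hu hsu (hxU c (by omega)) hsc huc
        have e2 := pr_one hP hs hu hsu (hxU m (by omega)) (hxU j (by omega)) hjm.symm hsm hsj
          huj hum
        omega
      · have hmc2 : c + 2 ≤ m := by
          by_contra hcon
          exact hum ((hux m hmc hm2).2 (by omega))
        rcases Nat.lt_or_ge m d with hmd | hmd
        · obtain ⟨t1, ht1, h1⟩ := hex (m - 1) (by omega) (by omega)
          obtain ⟨t2, ht2, h2⟩ := hex m (by omega) hmd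
          have h1m : G.Adj t1 (x m) := (h1 m (by omega) hm2).2 (by omega)
          have h2m : G.Adj t2 (x m) := (h2 m (by omega) hm2).2 (by omega)
          have h1j : ¬ G.Adj t1 (x j) := fun h => hΓ t1 ht1 h h1m
          have h2j : ¬ G.Adj t2 (x j) := fun h => hΓ t2 ht2 h h2m
          have hut1 : u ≠ t1 := by
            rintro rfl
            exact h1j huj
          have hut2 : u ≠ t2 := by
            rintro rfl
            exact h2j huj
          have e1 := pr_one hP hu ht1 hut1 (hxU j (by omega)) (hxU m (by omega)) hjm huj hum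
            h1m h1j
          have e2 := pr_one hP hu ht2 hut2 (hxU j (by omega)) (hxU m (by omega)) hjm huj hum
            h2m h2j
          have e3 := arc_pr hP (x := x) (p := c + 1) (q := m - 1) (by omega)
            (fun i j' hi hij hj' => by
              rw [hadjs i j' (by omega) hij (by omega)]; omega)
            (fun a _ _ => hxU a (by omega)) hu ht1 hut1
            (fun a ha hb => by rw [hux a (by omega) (by omega)]; omega)
            (fun a ha hb => by rw [h1 a (by omega) (by omega)]; omega)
          have e4 := arc_pr hP (x := x) (p := c + 1) (q := m) (by omega)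
            (fun i j' hi hij hj' => by
              rw [hadjs i j' (by omega) hij (by omega)]; omega)
            (fun a _ _ => hxU a (by omega)) hu ht2 hut2
            (fun a ha hb => by rw [hux a (by omega) (by omega)]; omega)
            (fun a ha hb => by rw [h2 a (by omega) (by omega)]; omega)
          omega
        · have e : m = d := by omega
          subst e
          have := det_apex hN (x := x) (p := j) (c := j) (q := c + 1) (d := m) le_rfl (by omega)
            (fun i j' hi hij hj' => by omega)
            (fun i j' hi hij hj' => by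
              rw [hadjs i j' (by omega) hij (by omega)]; omega)
            (fun a b ha ha' hb hb' => by
              have ea : a = j := by omega
              subst ea
              constructor
              · intro h
                refine ⟨rfl, ?_⟩
                by_contra hne
                exact ihm b (by omega) (by omega) hb' h
              · rintro ⟨-, rfl⟩
                exact hjm)
            (by omega) (w := u)
            (fun a ha ha' => by
              have ea : a = j := by omega
              subst ea
              exact ⟨fun _ => rfl, fun _ => huj⟩)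
            (fun b hb hb' => by rw [hux b (by omega) (by omega)]; omega)
          rw [Nat.even_iff] at this
          omega
    -- the whole sequence `x j, ..., x d` has only one chord
    have hall : ∀ a b, j ≤ a → a < b → b ≤ d →
        (G.Adj (x a) (x b) ↔ b = a + 1 ∨ (a = c ∧ b = d)) := by
      intro a b ha hab hb
      rcases Nat.lt_or_ge a c with hac | hac
      · constructor
        · intro h
          left
          by_contra hne
          rcases Nat.lt_or_ge j a with h' | h'
          · exact (IH' a h' hac).1 b (by omega) hb h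
          · have e : a = j := by omega
            rw [e] at h
            exact P1 b (by omega) hb h
        · rintro (e | ⟨e, -⟩)
          · subst e
            exact (hcm a (by omega)).1
          · omega
      · exact hadjs a b hac hab hb
    -- (2a)
    have P2a : ∀ v ∈ T, G.Adj v (x j) → ∀ i, c ≤ i → i < d →
        (∀ m, c ≤ m → m ≤ d → (G.Adj v (x m) ↔ m = i ∨ m = i + 1)) → i = c := by
      intro v hv hvj i hi1 hi2 hi3
      by_contra hne
      have hci : c < i := by omega
      -- the last index `j'` in `[j, c)` seen by `v`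
      obtain ⟨j', hj1, hj2, hj3, hj4⟩ : ∃ j', j ≤ j' ∧ j' < c ∧ G.Adj v (x j') ∧
          ∀ a, j' < a → a < c → ¬ G.Adj v (x a) := by
        have hex' : ∃ k, k < c - j ∧ G.Adj v (x (c - 1 - k)) :=
          ⟨c - 1 - j, by omega, by rwa [show c - 1 - (c - 1 - j) = j by omega]⟩
        classical
        refine ⟨c - 1 - Nat.find hex', by have := (Nat.find_spec hex').1; omega,
          by have := (Nat.find_spec hex').1; omega, (Nat.find_spec hex').2, ?_⟩
        intro a ha1 ha2 ha3
        refine Nat.find_min hex' (m := c - 1 - a) ?_ ⟨?_, ?_⟩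
        · omega
        · have := (Nat.find_spec hex').1; omega
        · rwa [show c - 1 - (c - 1 - a) = a by omega]
      have hvs : ∀ a, j' ≤ a → a ≤ d → (G.Adj v (x a) ↔ a = j' ∨ a = i ∨ a = i + 1) := by
        intro a ha1 ha2
        rcases Nat.lt_or_ge a c with h | h
        · constructor
          · intro h'
            left
            by_contra hne'
            exact hj4 a (by omega) h h'
          · rintro (e | e | e)
            · rwa [e]
            · omega
            · omega
        · rw [hi3 a h ha2]
          omega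
      have e1 := arc_apex hN (x := x) (p := j') (q := i) (by omega)
        (fun a b ha hab hb => by rw [hall a b (by omega) hab (by omega)]; omega) (w := v)
        (fun a ha hb => by rw [hvs a ha (by omega)]; omega)
      have e2 := det_apex hN (x := x) (p := j') (c := c) (q := i + 1) (d := d) (by omega)
        (by omega)
        (fun a b ha hab hb => by rw [hall a b (by omega) hab (by omega)]; omega)
        (fun a b ha hab hb => by rw [hall a b (by omega) hab (by omega)]; omega)
        (fun a b ha ha' hb hb' => by rw [hall a b (by omega) (by omega) (by omega)]; omega)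
        (by omega) (w := v)
        (fun a ha hb => by rw [hvs a ha (by omega)]; omega)
        (fun a ha hb => by rw [hvs a (by omega) (by omega)]; omega)
      rw [Nat.even_iff] at e1 e2
      omega
    refine ⟨P1, ?_⟩
    intro v hv hvj
    by_cases hv1 : ∃ m, c ≤ m ∧ m ≤ d ∧ G.Adj v (x m)
    · obtain ⟨m, hm1, hm2, hm3⟩ := hv1
      obtain ⟨i, hi1, hi2, hi3⟩ := hsee v hv m hm1 hm2 hm3
      have e := P2a v hv hvj i hi1 hi2 hi3
      subst e
      exact ⟨(hi3 i le_rfl (by omega)).2 (Or.inl rfl),
        (hi3 (i + 1) (by omega) (by omega)).2 (Or.inr rfl)⟩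
    · exfalso
      push Not at hv1
      obtain ⟨t, ht, h1⟩ := hex (c + 1) (by omega) (by omega)
      have htj : ¬ G.Adj t (x j) := by
        intro h
        have := P2a t ht h (c + 1) (by omega) (by omega) h1
        omega
      have htc : ¬ G.Adj t (x c) := by
        rw [h1 c le_rfl (by omega)]
        omega
      have hts : ∀ a, j ≤ a → a ≤ d → (G.Adj t (x a) ↔ a = c + 1 ∨ a = c + 2) := by
        intro a ha1 ha2
        rcases Nat.lt_or_ge a c with h | h
        · constructor
          · intro h'
            exfalso
            rcases Nat.lt_or_ge j a with h2 | h2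
            · exact htc ((IH' a h2 h).2 t ht h').1
            · have e : a = j := by omega
              rw [e] at h'
              exact htj h'
          · intro h'; omega
        · exact h1 a h ha2
      have hvs : ∀ a, j ≤ a → a ≤ d → (G.Adj v (x a) ↔ a = j) := by
        intro a ha1 ha2
        constructor
        · intro h'
          by_contra hne
          rcases Nat.lt_or_ge a c with h | h
          · exact hv1 c le_rfl (by omega) ((IH' a (by omega) h).2 v hv h').1
          · exact hv1 a h ha2 h'
        · rintro rfl
          exact hvj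
      have hvt : v ≠ t := by
        rintro rfl
        exact htj hvj
      have e1 := arc_pr hP (x := x) (p := j) (q := c + 1) (by omega)
        (fun a b ha hab hb => by rw [hall a b (by omega) hab (by omega)]; omega)
        (fun a _ _ => hxU a (by omega)) hv ht hvt
        (fun a ha hb => by rw [hvs a ha (by omega)])
        (fun a ha hb => by rw [hts a ha (by omega)]; omega)
      have e2 := det_pr hP (x := x) (p := j) (c := c) (q := c + 2) (d := d) (by omega) (by omega)
        (fun a b ha hab hb => by rw [hall a b (by omega) hab (by omega)]; omega)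
        (fun a b ha hab hb => by rw [hall a b (by omega) hab (by omega)]; omega)
        (fun a b ha ha' hb hb' => by rw [hall a b (by omega) (by omega) (by omega)]; omega)
        (fun a _ _ => hxU a (by omega)) (fun a _ _ => hxU a (by omega)) hv ht hvt
        (fun a ha hb => by rw [hvs a ha (by omega)])
        (fun a ha hb => by rw [hvs a (by omega) (by omega)]; omega)
        (fun a ha hb => by rw [hts a ha (by omega)]; omega)
        (fun a ha hb => by rw [hts a (by omega) (by omega)]; omega)
      omega
  intro j hj
  exact key (c - j - 1) j (by omega)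

end Pool.Agent.Helper63.PG
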