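import Pool.Agent.Helper63.PG.Asm1
import Pool.Agent.Helper63.PG.M_QLM
import Pool.Agent.Helper62.PG.M_PRU
import Pool.Agent.Helper87.PG.M_N1M
import Pool.Agent.Helper7.PG.M_SPM
import Pool.Agent.Helper92.PG.M_LSM
import Pool.Agent.Helper92.PG.M_QTM
import Pool.Agent.Helper92.PG.M_GNM
import Pool.Agent.Helper92.PG.M_MEY
import Pool.Agent.Helper77.PG.M_CLO
import Pool.Agent.Helper80.PG.M_CLQ
import Pool.Agent.Helper70.PG.M_PAR
import Pool.Agent.Helper20.PG.M_LAY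
import Pool.Agent.Helper20.PG.M_GME

/-! # Assembly, part 2 -/

set_option autoImplicit false

namespace Pool.Agent.Helper63.PG

open Pool.Agent.Helper63.OC Pool.Agent.Helper24.OCM

theorem oneLayer : OneLayer := by
  intro G R T U h
  obtain ⟨π, hP⟩ := Helper62.PG.hPRU h
  have hN1 := Helper87.PG.hN1M h
  have hS := Helper7.PG.hSPM h hN1
  have hL := Helper92.PG.hLSM h hS hP
  have hC : ∀ x ∈ U, ∀ y ∈ U, ∀ z ∈ U, G.Adj x z → Cm G T x y → Cm G T y z →
      ∃ t ∈ T, G.Adj t x ∧ G.Adj t y ∧ G.Adj t z :=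
    fun x hx y hy z hz hxz h1 h2 => Helper77.PG.hCLO hP hx hy hz hxz h1 h2
  have hQ : ∀ (x : ℕ → ℕ) (l c d : ℕ), GIP G T U x l → c + 2 ≤ d → d ≤ l → G.Adj (x c) (x d) →
      (∀ i j, c ≤ i → i + 2 ≤ j → j ≤ d → G.Adj (x i) (x j) → i = c ∧ j = d) →
      LeftExt G T x c d :=
    fun x l c d hx hcd hd hadj hmin => qleft h.noh hP hL hx hcd hd hadj hmin
  refine ⟨Helper92.PG.hGNM h.noh hC ?_, ?_, ?_⟩
  · intro x l hx i j i' j' h1 h2 h3 h4 h5 h6
    exact Helper92.PG.hQTM h.noh hP hL hC hQ hx h1 h2 h3 h4 h5 h6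
  · intro Q hne hU hQ
    exact Helper80.PG.hCLQ hP h.sees Q hne hU hQ
  · intro W hWU hW L hodd h5 f hinj hfW hadj
    exact Helper92.PG.hMEY (π := π) h.noh
      (fun f m hf hU hd s hs t ht h0 h1 => Helper70.PG.hPAR h.noh hP hf hU hd hs ht h0 h1)
      hWU h.sees hW hodd h5 f hinj hfW hadj

theorem proper' (K k w : ℕ) (G : SimpleGraph ℕ) (hc : G.Colorable k) (hN : NOH G)
    (hF : G.CliqueFree (w + 1)) (a b : ℕ) (hab : G.Adj a b) :
    col K k w G a ≠ col K k w G b := by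
  have hLay : ∀ (K k : ℕ) (G : SimpleGraph ℕ), G.Colorable k → NOH G →
      ∀ x τ i c, Lay G {w | w ≤ τ ∧ nr G τ x w i}
        {w | w ≤ τ ∧ nr G τ x w (i + 1) ∧ ¬ nr G τ x w i ∧ kc k G τ w = c}
        (UU K k G x τ (i + 1) c) :=
    fun K k G hc hN x τ i c => Helper20.PG.hLAY hc hN (fun v hv => vs K k G v hv) x τ i c
  refine proper oneLayer hLay ?_ K k w G hc hN hF a b hab
  intro K k G c0 hc hN hp
  exact Helper20.PG.hGME c0 hp oneLayer (same K k G) (hLay K k G hc hN)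
    (Helper72.PG.hGMR (fun v hv => vs K k G v hv))

theorem main (k : ℕ) :
    ∃ N0 : ℕ, ∀ n : ℕ, N0 ≤ n → ∃ A : (m : ℕ) → SimpleGraph (Fin m) → ℕ,
      ∀ G : SimpleGraph (Fin n), G.Colorable k → NOH (liftG G) →
      (∀ i j : Fin n, G.Adj i j →
        A (i.val + 1) (SimpleGraph.comap (Fin.castLE (Nat.succ_le_of_lt i.isLt)) G) ≠
        A (j.val + 1) (SimpleGraph.comap (Fin.castLE (Nat.succ_le_of_lt j.isLt)) G)) ∧
      (((Finset.univ.image (fun i : Fin n =>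
        A (i.val + 1) (SimpleGraph.comap (Fin.castLE (Nat.succ_le_of_lt i.isLt)) G))).card : ℝ)
        ≤ Real.exp (5 * k * Real.sqrt (Real.log n))) :=
  main_of proper' k

end Pool.Agent.Helper63.PG
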