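import Pool.Agent.Helper24.OCM.Full

/-! # Graphs without odd holes: induced paths, induced cycles, one layer

`Hol G f L`: `f 0, ..., f (L-1)` is an induced cycle.  `IP G f m`: `f 0, ..., f m` is an induced
path.  Nothing is required about injectivity (it is automatic for `5 ≤ L` and never needed).
-/

set_option autoImplicit false

namespace Pool.Agent.Helper63.PG

variable {V : Type*}

/-- `f 0, ..., f (L-1)` is an induced cycle -/
def Hol (G : SimpleGraph V) (f : ℕ → V) (L : ℕ) : Prop :=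
  ∀ i j, i < j → j < L → (G.Adj (f i) (f j) ↔ j = i + 1 ∨ (i = 0 ∧ j + 1 = L))

/-- no induced odd cycle of length at least `5` -/
def NOH (G : SimpleGraph V) : Prop := ∀ L, Odd L → 5 ≤ L → ∀ f : ℕ → V, ¬ Hol G f L

/-- `f 0, ..., f m` is an induced path -/
def IP (G : SimpleGraph V) (f : ℕ → V) (m : ℕ) : Prop :=
  ∀ i j, i < j → j ≤ m → (G.Adj (f i) (f j) ↔ j = i + 1)

/-- `u`, `v` have a common neighbour in `T` -/
def Cm (G : SimpleGraph V) (T : Set V) (u v : V) : Prop := ∃ t ∈ T, G.Adj t u ∧ G.Adj t v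

theorem Cm.symm {G : SimpleGraph V} {T : Set V} {u v : V} (h : Cm G T u v) : Cm G T v u := by
  obtain ⟨t, h1, h2, h3⟩ := h
  exact ⟨t, h1, h3, h2⟩

/-- One layer: `R` is connected, `T` is stable and every vertex of `T` has a neighbour in `R`,
there are no edges between `U` and `R`, and every vertex of `U` has a neighbour in `T`. -/
structure Lay (G : SimpleGraph V) (R T U : Set V) : Prop where
  noh : NOH G
  conn : ∀ a ∈ R, ∀ b ∈ R, ∃ (n : ℕ) (q : ℕ → V), q 0 = a ∧ q n = b ∧ (∀ i ≤ n, q i ∈ R) ∧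
    ∀ i < n, G.Adj (q i) (q (i + 1))
  stab : ∀ s ∈ T, ∀ t ∈ T, ¬ G.Adj s t
  tR : ∀ t ∈ T, ∃ r ∈ R, G.Adj t r
  anti : ∀ u ∈ U, ∀ r ∈ R, ¬ G.Adj u r
  sees : ∀ u ∈ U, ∃ t ∈ T, G.Adj t u

/-- the graph `Γ`: adjacent vertices of `U` with a common neighbour in `T` -/
def Gam (G : SimpleGraph V) (T U : Set V) : SimpleGraph V where
  Adj u v := u ∈ U ∧ v ∈ U ∧ G.Adj u v ∧ Cm G T u v
  symm := ⟨fun _ _ h => ⟨h.2.1, h.1, h.2.2.1.symm, h.2.2.2.symm⟩⟩
  loopless := ⟨fun _ h => G.loopless.irrefl _ h.2.2.1⟩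

/-- The pair rule: the parity of an induced path `s, f 0, ..., f m, t` with `f 0, ..., f m` in `U`
depends only on `s`, `t`. -/
def PRule (G : SimpleGraph V) (T U : Set V) (π : V → V → ℕ) : Prop :=
  ∀ s ∈ T, ∀ t ∈ T, s ≠ t → ∀ (f : ℕ → V) (m : ℕ), IP G f m → (∀ i ≤ m, f i ∈ U) →
    (∀ i ≤ m, (G.Adj s (f i) ↔ i = 0)) → (∀ i ≤ m, (G.Adj t (f i) ↔ i = m)) → m % 2 = π s t

/-- The statement N1. -/
def N1 (G : SimpleGraph V) (T U : Set V) : Prop :=
  ∀ (c : ℕ → V) (L : ℕ), 4 ≤ L → Hol G c L → (∀ i < L, c i ∈ U ∨ c i ∈ T) →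
    (∃ i < L, c i ∈ T) → ∀ w ∈ T, ∀ p, p + 1 < L →
    ¬ (∀ i < L, (G.Adj w (c i) ↔ i = p ∨ i = p + 1))

/-- The statement S⁺. -/
def SPlus (G : SimpleGraph V) (T U : Set V) : Prop :=
  ∀ (c : ℕ → V) (L : ℕ), 4 ≤ L → Hol G c L → (∀ i < L, c i ∈ U ∨ c i ∈ T) →
    (∃ i < L, c i ∈ T) → c 0 ∈ U → c (L - 1) ∈ U → ¬ Cm G T (c 0) (c (L - 1)) →
    ¬ (∀ i, i + 1 < L → c i ∈ U → c (i + 1) ∈ U → Cm G T (c i) (c (i + 1)))

/-- The statement of Lemma S. -/
def LemS (G : SimpleGraph V) (T U : Set V) : Prop :=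
  ∀ (x : ℕ → V) (a : ℕ), 3 ≤ a → Hol G x (a + 1) → (∀ i ≤ a, x i ∈ U) →
    (∀ i < a, Cm G T (x i) (x (i + 1))) → ¬ Cm G T (x 0) (x a) →
    ∀ w ∈ T, ∀ i0 ≤ a, G.Adj w (x i0) → ∃ i < a, ∀ j ≤ a, (G.Adj w (x j) ↔ j = i ∨ j = i + 1)

/-- `x 0, ..., x l` is an induced path of `Γ` -/
def GIP (G : SimpleGraph V) (T U : Set V) (x : ℕ → V) (l : ℕ) : Prop :=
  (∀ i ≤ l, x i ∈ U) ∧ ∀ i j, i < j → j ≤ l → ((G.Adj (x i) (x j) ∧ Cm G T (x i) (x j)) ↔ j = i + 1)

/-- The conclusion of the left extension: for all `j < c` (1) `x j` has no neighbour among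
`x (j+2), ..., x d`, (2) every `t ∈ T` which sees `x j` sees `x c` and `x (c+1)`. -/
def LeftExt (G : SimpleGraph V) (T : Set V) (x : ℕ → V) (c d : ℕ) : Prop :=
  ∀ j < c, (∀ m, j + 2 ≤ m → m ≤ d → ¬ G.Adj (x j) (x m)) ∧
    (∀ t ∈ T, G.Adj t (x j) → G.Adj t (x c) ∧ G.Adj t (x (c + 1)))

/-! ### the toolkit -/

/-- concatenation: `f 0, ..., f p, g 0, g 1, ...` -/
def cat (f : ℕ → V) (p : ℕ) (g : ℕ → V) (m : ℕ) : V := if m ≤ p then f m else g (m - p - 1)

theorem cat_le {f g : ℕ → V} {p m : ℕ} (h : m ≤ p) : cat f p g m = f m := if_pos h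

theorem cat_gt {f g : ℕ → V} {p m : ℕ} (h : p < m) : cat f p g m = g (m - p - 1) :=
  if_neg (by omega)

theorem IP.cat {G : SimpleGraph V} {f g : ℕ → V} {p q : ℕ} (hf : IP G f p) (hg : IP G g q)
    (hc : ∀ i ≤ p, ∀ j ≤ q, (G.Adj (f i) (g j) ↔ i = p ∧ j = 0)) :
    IP G (PG.cat f p g) (p + q + 1) := by
  intro i j hij hj
  rcases Nat.lt_or_ge p i with hi | hi
  · rw [cat_gt hi, cat_gt (by omega : p < j), hg _ _ (by omega) (by omega)]
    omega
  · rcases Nat.lt_or_ge p j with hj' | hj'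
    · rw [cat_le hi, cat_gt hj', hc _ hi _ (by omega)]
      omega
    · rw [cat_le hi, cat_le hj', hf _ _ hij hj']

theorem IP.rev {G : SimpleGraph V} {f : ℕ → V} {m : ℕ} (hf : IP G f m) :
    IP G (fun i => f (m - i)) m := by
  intro i j hij hj
  show G.Adj (f (m - i)) (f (m - j)) ↔ _
  rw [G.adj_comm, hf _ _ (by omega) (by omega)]
  omega

/-- a part of an induced path -/
theorem IP.sub {G : SimpleGraph V} {f : ℕ → V} {m : ℕ} (hf : IP G f m) {a b : ℕ}
    (hab : a + b ≤ m) : IP G (fun i => f (a + i)) b := by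
  intro i j hij hj
  show G.Adj (f (a + i)) (f (a + j)) ↔ _
  rw [hf _ _ (by omega) (by omega)]
  omega

/-- a single vertex -/
theorem IP.single (G : SimpleGraph V) (f : ℕ → V) : IP G f 0 := by
  intro i j hij hj
  omega

/-- an arc of an induced cycle which does not contain the closing edge -/
theorem Hol.arc {G : SimpleGraph V} {f : ℕ → V} {L : ℕ} (hf : Hol G f L) {a b : ℕ}
    (hab : a + b < L) (h : a ≠ 0 ∨ b + 1 < L) : IP G (fun i => f (a + i)) b := by
  intro i j hij hj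
  show G.Adj (f (a + i)) (f (a + j)) ↔ _
  rw [hf _ _ (by omega) (by omega)]
  omega

/-- the arc `f p, f (p-1), ..., f 0, f (L-1), ..., f q` -/
theorem Hol.around {G : SimpleGraph V} {f : ℕ → V} {L : ℕ} (hf : Hol G f L) {p q : ℕ}
    (hpq : p + 1 < q) (hq : q < L) :
    IP G (PG.cat (fun i => f (p - i)) p (fun i => f (L - 1 - i))) (p + (L - 1 - q) + 1) := by
  refine IP.cat (IP.rev (f := f) (m := p) ?_) ?_ ?_
  · intro i j hij hj
    rw [hf _ _ hij (by omega)]
    omega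
  · intro i j hij hj
    show G.Adj (f (L - 1 - i)) (f (L - 1 - j)) ↔ _
    rw [G.adj_comm, hf _ _ (by omega) (by omega)]
    omega
  · intro i hi j hj
    show G.Adj (f (p - i)) (f (L - 1 - j)) ↔ _
    rw [hf _ _ (by omega) (by omega)]
    omega

/-- rotation of an induced cycle -/
theorem Hol.rot {G : SimpleGraph V} {f : ℕ → V} {L : ℕ} (hf : Hol G f L) {r : ℕ} (hr : r < L)
    (hL : 3 ≤ L) : Hol G (fun m => f (if m + r < L then m + r else m + r - L)) L := by
  intro i j hij hj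
  show G.Adj (f (if i + r < L then i + r else i + r - L))
    (f (if j + r < L then j + r else j + r - L)) ↔ _
  split_ifs with h1 h2 h2
  · rw [hf _ _ (by omega) (by omega)]; omega
  · rw [G.adj_comm, hf _ _ (by omega) (by omega)]; omega
  · omega
  · rw [hf _ _ (by omega) (by omega)]; omega

theorem Hol.rev {G : SimpleGraph V} {f : ℕ → V} {L : ℕ} (hf : Hol G f L) :
    Hol G (fun m => f (L - 1 - m)) L := by
  intro i j hij hj
  show G.Adj (f (L - 1 - i)) (f (L - 1 - j)) ↔ _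
  rw [G.adj_comm, hf _ _ (by omega) (by omega)]
  omega

/-- a vertex seeing exactly the two ends of an induced path -/
theorem NOH.apex {G : SimpleGraph V} (hG : NOH G) {f : ℕ → V} {m : ℕ} (hf : IP G f m)
    (hm : 2 ≤ m) {w : V} (hw : ∀ i ≤ m, (G.Adj w (f i) ↔ i = 0 ∨ i = m)) : Even m := by
  by_contra hodd
  rw [Nat.not_even_iff_odd] at hodd
  refine hG (m + 2) (by rw [Nat.odd_iff] at hodd ⊢; omega) (by rw [Nat.odd_iff] at hodd; omega)
    (PG.cat (fun _ => w) 0 f) ?_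
  intro i j hij hj
  rw [cat_gt (by omega : 0 < j)]
  rcases Nat.eq_zero_or_pos i with hi | hi
  · subst hi
    rw [cat_le le_rfl, hw _ (by omega)]
    omega
  · rw [cat_gt hi, hf _ _ (by omega) (by omega)]
    omega

theorem NOH.even {G : SimpleGraph V} (hG : NOH G) {f : ℕ → V} {L : ℕ} (hf : Hol G f L)
    (h4 : 4 ≤ L) : Even L := by
  by_contra hodd
  rw [Nat.not_even_iff_odd] at hodd
  exact hG L hodd (by rw [Nat.odd_iff] at hodd; omega) f hf

/-- replace `c (p+1), ..., c (p+δ+1)` by `w` -/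
def splice (c : ℕ → V) (p : ℕ) (w : V) (δ : ℕ) (m : ℕ) : V :=
  if m ≤ p then c m else if m = p + 1 then w else c (m + δ)

theorem splice_le {c : ℕ → V} {p δ m : ℕ} {w : V} (h : m ≤ p) : splice c p w δ m = c m := if_pos h

theorem splice_mid {c : ℕ → V} {p δ : ℕ} {w : V} : splice c p w δ (p + 1) = w := by
  unfold splice
  rw [if_neg (by omega), if_pos rfl]

theorem splice_gt {c : ℕ → V} {p δ m : ℕ} {w : V} (h : p + 1 < m) :
    splice c p w δ m = c (m + δ) := by
  unfold splice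
  rw [if_neg (by omega), if_neg (by omega)]

/-- if `w` sees `c p`, `c (p+δ+2)` and nothing before `p` and after `p+δ+2` -/
theorem Hol.splice {G : SimpleGraph V} {c : ℕ → V} {L p δ : ℕ} (hc : Hol G c L)
    (hpL : p + δ + 2 < L) {w : V} (hp : G.Adj w (c p)) (hq : G.Adj w (c (p + δ + 2)))
    (hlt : ∀ i < p, ¬ G.Adj w (c i)) (hgt : ∀ i, p + δ + 2 < i → i < L → ¬ G.Adj w (c i))
    (hne : ¬ (p = 0 ∧ p + δ + 3 = L)) : Hol G (PG.splice c p w δ) (L - δ) := by
  intro i j hij hj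
  rcases Nat.lt_or_ge p i with hi | hi
  · rcases Nat.lt_or_ge (p + 1) i with hi' | hi'
    · rw [splice_gt hi', splice_gt (by omega : p + 1 < j), hc _ _ (by omega) (by omega)]
      omega
    · have hi2 : i = p + 1 := by omega
      subst hi2
      rw [splice_mid, splice_gt hij]
      by_cases h : j = p + 2
      · subst h
        rw [show p + 2 + δ = p + δ + 2 by omega]
        exact ⟨fun _ => Or.inl rfl, fun _ => hq⟩
      · constructor
        · intro hadj
          exact absurd hadj (hgt _ (by omega) (by omega))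
        · intro h'
          omega
  · rw [splice_le hi]
    rcases Nat.lt_or_ge p j with hj' | hj'
    · rcases Nat.lt_or_ge (p + 1) j with hj2 | hj2
      · rw [splice_gt hj2, hc _ _ (by omega) (by omega)]
        omega
      · have hj3 : j = p + 1 := by omega
        subst hj3
        rw [splice_mid, G.adj_comm]
        by_cases h : i = p
        · subst h
          exact ⟨fun _ => Or.inl rfl, fun _ => hp⟩
        · constructor
          · intro hadj
            exact absurd hadj (hlt _ (by omega))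
          · intro h'
            omega
    · rw [splice_le hj', hc _ _ (by omega) (by omega)]
      omega

theorem GIP.sub {G : SimpleGraph V} {T U : Set V} {x : ℕ → V} {l a b : ℕ} (hx : GIP G T U x l)
    (hab : a + b ≤ l) : GIP G T U (fun i => x (a + i)) b := by
  refine ⟨fun i hi => hx.1 _ (by omega), fun i j hij hj => ?_⟩
  show (G.Adj (x (a + i)) (x (a + j)) ∧ Cm G T (x (a + i)) (x (a + j))) ↔ _
  rw [hx.2 _ _ (by omega) (by omega)]
  omega

theorem GIP.rev {G : SimpleGraph V} {T U : Set V} {x : ℕ → V} {l : ℕ} (hx : GIP G T U x l) :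
    GIP G T U (fun i => x (l - i)) l := by
  refine ⟨fun i hi => hx.1 _ (by omega), fun i j hij hj => ?_⟩
  show (G.Adj (x (l - i)) (x (l - j)) ∧ Cm G T (x (l - i)) (x (l - j))) ↔ _
  have h : ∀ a b, (G.Adj (x a) (x b) ∧ Cm G T (x a) (x b)) ↔
      (G.Adj (x b) (x a) ∧ Cm G T (x b) (x a)) := fun a b =>
    ⟨fun h => ⟨h.1.symm, h.2.symm⟩, fun h => ⟨h.1.symm, h.2.symm⟩⟩
  rw [h, hx.2 _ _ (by omega) (by omega)]
  omega

end Pool.Agent.Helper63.PG
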