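import Pool.Agent.Helper63.PG.Alg

/-! # Statements of the modules, part A: the algorithm is correct -/

set_option autoImplicit false

namespace Pool.Agent.Helper63.PG

open Pool.Agent.Helper63.OC Pool.Agent.Helper24.OCM

/-- MODULE VSP. Let `x = anc v`, `τ = tt v = tau (H1 K G) v`, `w = fn (H1 K G) v`. By `TauS`
`w < v`, `(H1 K G).Adj v w`, i.e. `G.Adj v w` and `lab1 v = lab1 w`, `w ≤ τ < v`. By `AncS`
`anc w = x`, `x ≤ w ≤ τ`, and `nr G w w x (2 rr (ci w))`, `ci w = ci v`. So `nr G τ x w (2 rr (ci v))`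
and the set in the definition of `lay` contains this number; `Nat.sInf_mem`, `Nat.sInf_le`. The set in
the definition of `cc` is nonempty, so by `Nat.sInf_mem` `TT` is nonempty. -/
theorem vspec {K k : ℕ} {G : SimpleGraph ℕ} (hA : AncS K G) (hT : TauS (H1 K G)) {v : ℕ}
    (h : hasp (H1 K G) v) : Vs K k G v := by
  sorry

/-- MODULE SAM (same data). If `lab u = lab v`, `G.Adj u v`, then all data agree: we may assume
`u < v`. The first components give `lab1 u = lab1 v`, so `(H1 K G).Adj u v`; `TauS` gives `hasp`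
and equal time stamps, `AncS` equal anchors; then the third components of `lab` give the rest. -/
theorem same_data {K k : ℕ} {G : SimpleGraph ℕ} (hA : AncS K G) (hT : TauS (H1 K G)) {u v : ℕ}
    (hadj : (G3 K k G).Adj u v) :
    hasp (H1 K G) u ∧ hasp (H1 K G) v ∧ anc K G u = anc K G v ∧ tt K G u = tt K G v ∧
    lay G (anc K G u) (tt K G u) u = lay G (anc K G v) (tt K G v) v ∧
    cc k G (anc K G u) (tt K G u) u = cc k G (anc K G v) (tt K G v) v := by
  sorry

/-- MODULE LAY. Here the layer is `i + 1`. `conn`: for `a` with `nr G τ x a i` a walk `p` of length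
`≤ i` in `pre G τ`; all its vertices are in the ball (`p.takeUntil` or `p.take`); use
`p.getVert`; join the reversed walk from `a` to `x` with the walk from `x` to `b` (walk
`p.reverse.append q`, `q i := (..).getVert i`; every vertex of its support is in the ball).
`stab`: `s, t ∈ T` are `≤ τ` with the same colour `kc k G τ`, which is a proper colouring of
`pre G τ` (`(pre G τ).Colorable k` because `pre G τ ≤ G`; `Coloring.valid`, `Nonempty.some`).
`tR`: the last but one vertex of a walk of length `≤ i + 1` from `x` to `t` (length not `0`, since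
`¬ nr G τ x t i`). `anti`: `u ∈ U`, `r ∈ R`, `G.Adj u r`: `r ≤ τ` (`nr_le`, `x ≤ τ`), so by `laymin`
`lay ≤ i`, contradiction. `sees`: an element `w` of `TT` (`Vs.ne`); `¬ nr G τ x w i` by
`laymin`. -/
theorem lay_struct {K k : ℕ} {G : SimpleGraph ℕ} (hc : G.Colorable k) (hN : NOH G)
    (hV : ∀ v, hasp (H1 K G) v → Vs K k G v) (x τ i c : ℕ) :
    Lay G {w | w ≤ τ ∧ nr G τ x w i}
      {w | w ≤ τ ∧ nr G τ x w (i + 1) ∧ ¬ nr G τ x w i ∧ kc k G τ w = c}
      (UU K k G x τ (i + 1) c) := by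
  sorry

/-- MODULE GMR (the graph `Γ` inside a class). Let `u, v` be in the same class, with `lab u = lab v`.
(a) layer `0`: `TT = {x}` for `u` and `v` (`nr G τ x w 0` iff `w = x`), so
`(Gm K k G).Adj u v ↔ G.Adj u v`, and `G.Adj x u`. (b) layer `i + 1`: `w ∈ TT .. u` iff
`w` is in the set `T` of `lay_struct` and `G.Adj u w` (`¬ nr G τ x w i` by `laymin`). -/
theorem gm_rel {K k : ℕ} {G : SimpleGraph ℕ}
    (hV : ∀ v, hasp (H1 K G) v → Vs K k G v) (x τ c : ℕ) :
    (∀ u ∈ UU K k G x τ 0 c, G.Adj x u) ∧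
    (∀ u ∈ UU K k G x τ 0 c, ∀ v ∈ UU K k G x τ 0 c, lab K k G u = lab K k G v →
      ((Gm K k G).Adj u v ↔ G.Adj u v)) ∧
    (∀ i, ∀ u ∈ UU K k G x τ (i + 1) c, ∀ v ∈ UU K k G x τ (i + 1) c,
      lab K k G u = lab K k G v →
      ((Gm K k G).Adj u v ↔
        (Gam G {w | w ≤ τ ∧ nr G τ x w (i + 1) ∧ ¬ nr G τ x w i ∧ kc k G τ w = c}
          (UU K k G x τ (i + 1) c)).Adj u v)) := by
  sorry

/-- MODULE GNO. `Hol (Gm K k G) f L`, `L` odd, `5 ≤ L`. Consecutive vertices are adjacent in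
`Gm K k G`, so in `G3 K k G`: all `f j` (`j < L`) have the same `lab` and by `hD` the same data
`x, τ, i, c` (induction on `j`), i.e. they are in `UU K k G x τ i c`. If `i = 0`: by `hR` `Hol G f L`,
contradiction to `hN`. If `i = i' + 1`: by `hR` `Hol (Gam ..) f L`, contradiction to
`hO` and `hL`. -/
theorem gm_noh {K k : ℕ} {G : SimpleGraph ℕ} (hN : NOH G) (hO : OneLayer)
    (hD : ∀ u v, (G3 K k G).Adj u v →
      hasp (H1 K G) u ∧ hasp (H1 K G) v ∧ anc K G u = anc K G v ∧ tt K G u = tt K G v ∧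
      lay G (anc K G u) (tt K G u) u = lay G (anc K G v) (tt K G v) v ∧
      cc k G (anc K G u) (tt K G u) u = cc k G (anc K G v) (tt K G v) v)
    (hL : ∀ x τ i c, Lay G {w | w ≤ τ ∧ nr G τ x w i}
      {w | w ≤ τ ∧ nr G τ x w (i + 1) ∧ ¬ nr G τ x w i ∧ kc k G τ w = c}
      (UU K k G x τ (i + 1) c))
    (hR : ∀ x τ c, (∀ u ∈ UU K k G x τ 0 c, G.Adj x u) ∧
      (∀ u ∈ UU K k G x τ 0 c, ∀ v ∈ UU K k G x τ 0 c, lab K k G u = lab K k G v →
        ((Gm K k G).Adj u v ↔ G.Adj u v)) ∧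
      (∀ i, ∀ u ∈ UU K k G x τ (i + 1) c, ∀ v ∈ UU K k G x τ (i + 1) c,
        lab K k G u = lab K k G v →
        ((Gm K k G).Adj u v ↔
          (Gam G {w | w ≤ τ ∧ nr G τ x w (i + 1) ∧ ¬ nr G τ x w i ∧ kc k G τ w = c}
            (UU K k G x τ (i + 1) c)).Adj u v))) : NOH (Gm K k G) := by
  sorry

/-- MODULE GCL. Let `Q` be a clique of `Gm K k G` with `w + 2` elements. Any two elements are
adjacent in `G3 K k G`, so all have the same `lab` and data `x, τ, i, c`. If `i = 0` then `x` is adjacent in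
`G` to all of `Q` (and is not in `Q`); if `i = i' + 1` the second part of `OneLayer` gives `t`
adjacent in `G` to all of `Q`. So `insert t Q` is a clique of `G` with `w + 3` elements. -/
theorem gm_free {K k w : ℕ} {G : SimpleGraph ℕ} (hF : G.CliqueFree (w + 3)) (hO : OneLayer)
    (hD : ∀ u v, (G3 K k G).Adj u v →
      hasp (H1 K G) u ∧ hasp (H1 K G) v ∧ anc K G u = anc K G v ∧ tt K G u = tt K G v ∧
      lay G (anc K G u) (tt K G u) u = lay G (anc K G v) (tt K G v) v ∧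
      cc k G (anc K G u) (tt K G u) u = cc k G (anc K G v) (tt K G v) v)
    (hL : ∀ x τ i c, Lay G {w | w ≤ τ ∧ nr G τ x w i}
      {w | w ≤ τ ∧ nr G τ x w (i + 1) ∧ ¬ nr G τ x w i ∧ kc k G τ w = c}
      (UU K k G x τ (i + 1) c))
    (hR : ∀ x τ c, (∀ u ∈ UU K k G x τ 0 c, G.Adj x u) ∧
      (∀ u ∈ UU K k G x τ 0 c, ∀ v ∈ UU K k G x τ 0 c, lab K k G u = lab K k G v →
        ((Gm K k G).Adj u v ↔ G.Adj u v)) ∧
      (∀ i, ∀ u ∈ UU K k G x τ (i + 1) c, ∀ v ∈ UU K k G x τ (i + 1) c,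
        lab K k G u = lab K k G v →
        ((Gm K k G).Adj u v ↔
          (Gam G {w | w ≤ τ ∧ nr G τ x w (i + 1) ∧ ¬ nr G τ x w i ∧ kc k G τ w = c}
            (UU K k G x τ (i + 1) c)).Adj u v))) : (Gm K k G).CliqueFree (w + 2) := by
  sorry

/-- MODULE GME. Let `f : ZMod L → ℕ` be a cycle of `mono (G3 K k G) c0`, `L` odd, `5 ≤ L`. All
vertices of the cycle have the same `lab`, the same `c0` and, by `hD`, the same data `x, τ, i, c`
(walk around the cycle as in `IsMeyniel.mono` of Helper24/OCM/Full.lean). `i = 0` is impossible: by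
`hR` `(Gm K k G).Adj (f 0) (f 1)`, but `c0` is proper for `Gm` (`hp`) and `c0 (f 0) = c0 (f 1)`.
`i = i' + 1`: let `W` be the set of the `v` in `UU K k G x τ (i'+1) c` with `lab v = lab (f 0)` and
`c0 v = c0 (f 0)`. If `u, v ∈ W`, `G.Adj u v` then `¬ Cm G T u v`: otherwise
`(Gam G T U).Adj u v`, by `hR` `(Gm K k G).Adj u v`, contradiction to `hp`. The third part of
`OneLayer` gives two chords in `G`; their ends are in `W` so they are chords in
`mono (G3 K k G) c0`. -/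
theorem g4_mey {K k : ℕ} {G : SimpleGraph ℕ} {α : Type} (c0 : ℕ → α)
    (hp : ∀ u v, (Gm K k G).Adj u v → c0 u ≠ c0 v) (hO : OneLayer)
    (hD : ∀ u v, (G3 K k G).Adj u v →
      hasp (H1 K G) u ∧ hasp (H1 K G) v ∧ anc K G u = anc K G v ∧ tt K G u = tt K G v ∧
      lay G (anc K G u) (tt K G u) u = lay G (anc K G v) (tt K G v) v ∧
      cc k G (anc K G u) (tt K G u) u = cc k G (anc K G v) (tt K G v) v)
    (hL : ∀ x τ i c, Lay G {w | w ≤ τ ∧ nr G τ x w i}
      {w | w ≤ τ ∧ nr G τ x w (i + 1) ∧ ¬ nr G τ x w i ∧ kc k G τ w = c}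
      (UU K k G x τ (i + 1) c))
    (hR : ∀ x τ c, (∀ u ∈ UU K k G x τ 0 c, G.Adj x u) ∧
      (∀ u ∈ UU K k G x τ 0 c, ∀ v ∈ UU K k G x τ 0 c, lab K k G u = lab K k G v →
        ((Gm K k G).Adj u v ↔ G.Adj u v)) ∧
      (∀ i, ∀ u ∈ UU K k G x τ (i + 1) c, ∀ v ∈ UU K k G x τ (i + 1) c,
        lab K k G u = lab K k G v →
        ((Gm K k G).Adj u v ↔
          (Gam G {w | w ≤ τ ∧ nr G τ x w (i + 1) ∧ ¬ nr G τ x w i ∧ kc k G τ w = c}
            (UU K k G x τ (i + 1) c)).Adj u v))) :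
    IsMeyniel (mono (G3 K k G) c0) := by
  sorry

/-- MODULE PRO (the colouring is proper). Induction along the definition of `col`. `w = 0`:
`CliqueFree 1` is impossible (`{a}` is a clique); `w = 1`: no edges. `w + 2`: suppose
`G.Adj a b` and equal colours. The heads of the lists give `lab a = lab b` (so `(G3 K k G).Adj a b`) and
`fcol k M a = fcol k M b`, `M = mono (G3 K k G) c0`, `c0 = col K k (w+1) (Gm K k G)`; the tails give
`c0 a = c0 b`, so `M.Adj a b`. By induction `c0` is proper for `Gm K k G` (`hstep`, and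
`Gm K k G ≤ G` gives `Colorable k`). `M` is Meyniel by `hM` and `M ≤ G` is
`CliqueFree (k + 1)` as `G` is `k`-colourable. `fcol_proper` contradicts. -/
theorem col_proper (K k : ℕ)
    (hstep : ∀ (G : SimpleGraph ℕ) (w : ℕ), G.Colorable k → NOH G → G.CliqueFree (w + 3) →
      NOH (Gm K k G) ∧ (Gm K k G).CliqueFree (w + 2))
    (hM : ∀ (G : SimpleGraph ℕ) (c0 : ℕ → List (Lab × List (ℕ × ℕ))), G.Colorable k → NOH G →
      (∀ u v, (Gm K k G).Adj u v → c0 u ≠ c0 v) → IsMeyniel (mono (G3 K k G) c0)) :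
    ∀ (w : ℕ) (G : SimpleGraph ℕ), G.Colorable k → NOH G → G.CliqueFree (w + 1) →
      ∀ a b, G.Adj a b → col K k w G a ≠ col K k w G b := by
  sorry

/-- MODULE CLO3 (locality). `hasp`, `tt`, `anc`, `lab1`, `lab2` are local by hypothesis (`hl1`
gives `H1 K (pre G s) = pre (H1 K G) s`; compare `mono_pre'` of Helper24/OCM/Full.lean). For
`v ≤ s` with `hasp (H1 K G) v` we have `τ = tt v < v ≤ s` (`hV`), so `pre (pre G s) τ = pre G τ`,
`nr (pre G s) τ = nr G τ`, `kc k (pre G s) τ = kc k G τ`, `(pre G s).Adj v w ↔ G.Adj v w` for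
`w ≤ τ`; so `lay`, `cc`, `TT` and `lab` are local, and `Gm K k (pre G s) = pre (Gm K k G) s`
(both ends of an edge of `G3` have `hasp`, by `hD`). Then induction on `w` for `col`, with `fcol_pre` and
`mono (pre G' s) (c of pre) = pre (mono G' c) s`. `hV`, `hD` are available for all graphs. -/
theorem col_pre (K k : ℕ)
    (hl1 : ∀ (G : SimpleGraph ℕ) (s : ℕ), (∀ v ≤ s, anc K (pre G s) v = anc K G v) ∧
      (∀ v ≤ s, lab1 K (pre G s) v = lab1 K G v))
    (hl2 : ∀ (H : SimpleGraph ℕ) (s : ℕ), (∀ v ≤ s, (hasp (pre H s) v ↔ hasp H v)) ∧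
      (∀ v ≤ s, tau (pre H s) v = tau H v) ∧ (∀ v ≤ s, lab2 (pre H s) v = lab2 H v))
    (hV : ∀ (G : SimpleGraph ℕ) v, hasp (H1 K G) v → Vs K k G v)
    (hD : ∀ (G : SimpleGraph ℕ) u v, (G3 K k G).Adj u v →
      hasp (H1 K G) u ∧ hasp (H1 K G) v) :
    ∀ (w : ℕ) (G : SimpleGraph ℕ) (s t : ℕ), t ≤ s → col K k w (pre G s) t = col K k w G t := by
  sorry

/-- MODULE LMM. `ci < d` and `kap < 4 K ^ 2` are hypotheses; `cj ≤ log2 n` since the ball has at
most `v + 1 ≤ n` elements; `te ≤ log2 v ≤ log2 n`; `lay ≤ 2 rr (ci v)` and `rr` is increasing,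
`2 rr i < rr (i + 1) ≤ rr d` for `i < d`; `cc ≤ k`, because `cc` is a value of `kc`, which is `< k` or
`0`. (`0 < rr d` as `0 < d`.) -/
theorem lab_mem {d K k n : ℕ} (hd : 0 < d) {G : SimpleGraph ℕ} {v : ℕ} (hv : v < n)
    (h1 : ci K G v < d) (h2 : kap K G v < 4 * K ^ 2)
    (h3 : hasp (H1 K G) v → te (H1 K G) v ≤ Nat.log 2 v)
    (h4 : hasp (H1 K G) v → Vs K k G v) : lab K k G v ∈ LabF d K k n := by
  sorry

/-- MODULE CMM. Both parts by induction; `fcol_mem`, `card_F2`, `card_T2` of Helper24/OCM/Full.lean.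
`|LabF| = d (log2 n + 1) (4 K^2) (log2 n + 2) (rr d) (k + 1)`. -/
theorem col_mem (d K k n : ℕ)
    (hl : ∀ (G : SimpleGraph ℕ) (v : ℕ), v < n → lab K k G v ∈ LabF d K k n) :
    (∀ (w : ℕ) (G : SimpleGraph ℕ) (v : ℕ), v < n → col K k w G v ∈ ColF d K k n (w - 1)) ∧
    (∀ m, (ColF d K k n m).card ≤
      (d * (Nat.log 2 n + 1) * (4 * K ^ 2) * (Nat.log 2 n + 2) * rr d * (k + 1) *
        (2 * (Nat.log 2 n + 1)) ^ (k - 1)) ^ m) := by
  sorry

/-- MODULE NUM. `d = Nat.sqrt (Nat.log 2 n + 1) + 1`, `K = 2 ^ d`; (with `N = log2 n + 1`: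
`n < 2 ^ N ≤ 2 ^ (d^2) = K ^ d`). `rr d ≤ 7 ^ d`. The left side is `≤ (4 · 28 ^ d · P)^(k-1)`
where `P` is a polynomial in `N` (`d ≤ N + 1`), and `d ≤ √N + 1`, `N ≤ log n / log 2 + 1`;
`log 28 / √(log 2) < 4.01 < 5`, so for large `n` the left side is at most
`exp (5 k √(log n))`: after taking logarithms the claim is
`(k-1) (log 28 · (√N + 1) + log 4 + log P(N)) ≤ 5 k √(log n)`, and `log P(N) = o(√(log n))`.
(`k ≥ 1` is not needed: for `k = 0` the exponent is `0`.) -/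
theorem numeric (k : ℕ) : ∃ N0 : ℕ, ∀ n : ℕ, N0 ≤ n →
    n ≤ (2 ^ (Nat.sqrt (Nat.log 2 n + 1) + 1)) ^ (Nat.sqrt (Nat.log 2 n + 1) + 1) ∧
    ((((Nat.sqrt (Nat.log 2 n + 1) + 1) * (Nat.log 2 n + 1) *
      (4 * (2 ^ (Nat.sqrt (Nat.log 2 n + 1) + 1)) ^ 2) * (Nat.log 2 n + 2) *
      rr (Nat.sqrt (Nat.log 2 n + 1) + 1) * (k + 1) *
        (2 * (Nat.log 2 n + 1)) ^ (k - 1)) ^ (k - 1) : ℕ) : ℝ) ≤
      Real.exp (5 * k * Real.sqrt (Real.log n)) := by
  sorry

/-- MODULE PER. A perfect graph (as in the frozen statement) has no odd hole: `Hol (liftG G) f L`,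
`L` odd, `5 ≤ L`; all `f i < n` (every vertex has a neighbour); `f` is injective on `0..L-1` (for
`5 ≤ L` two vertices of an induced cycle have different neighbourhoods). Let `S` be the set of the
`f i`. Perfection gives `m` with `G.induce S` `m`-colourable and a clique of size `m` in `S`.
A clique of an induced cycle of length `≥ 5` has at most `2` vertices, so `m ≤ 2`, but an odd cycle is not
`2`-colourable (colours alternate along `f 0, f 1, ..., f (L-1)`, and `f (L-1) ~ f 0`). -/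
theorem perfect_noh {n : ℕ} (G : SimpleGraph (Fin n))
    (hG : ∀ S : Set (Fin n), ∃ m : ℕ, (G.induce S).Colorable m ∧
      ∃ s : Finset (Fin n), (↑s : Set (Fin n)) ⊆ S ∧ G.IsNClique m s) : NOH (liftG G) := by
  sorry

/-- MODULE OHL. `cycleGraph L ↪g G`, no such embedding for odd `L ≥ 5`, gives `NOH (liftG G)`: from
`Hol (liftG G) f L` build the embedding `i ↦ ⟨f i, _⟩` (injective as in `perfect_noh`; adjacency in
`SimpleGraph.cycleGraph L`: `SimpleGraph.cycleGraph_adj'` or similar). -/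
theorem oddhole_noh {n : ℕ} (G : SimpleGraph (Fin n))
    (hG : ∀ L : ℕ, Odd L → 5 ≤ L → IsEmpty (SimpleGraph.cycleGraph L ↪g G)) : NOH (liftG G) := by
  sorry

end Pool.Agent.Helper63.PG
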