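import Pool.Agent.Helper63.PG.Alg

/-! # Statements of the modules, part K: clustering and dyadic time stamps

Definitions in Alg.lean. Tools there: `nr_refl, nr_symm, nr_trans, nr_mono, nr_time, nr_adj, nr_pre,
nr_le, bal_fin, bal_pre, self_mem_bal`; from OC/Step.lean `pre_pre`, `pre_adj`.
-/

set_option autoImplicit false

namespace Pool.Agent.Helper63.PG

open Pool.Agent.Helper63.OC Pool.Agent.Helper24.OCM

/-- MODULE LOC (locality of everything in the clustering). All by unfolding and `nr_pre`/`bal_pre`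
(`v ≤ s`); for `isAnc` and `kap` strong induction on `v` (unfold once with `rw [isAnc]`, resp.
`rw [kap]`; in `kap` the two sets are equal by the induction hypothesis). -/
theorem locality {K : ℕ} {G : SimpleGraph ℕ} {s : ℕ} :
    (∀ v ≤ s, cl K (pre G s) v = cl K G v) ∧ (∀ v ≤ s, Bl K (pre G s) v = Bl K G v) ∧
    (∀ v ≤ s, (isAnc K (pre G s) v ↔ isAnc K G v)) ∧
    (∀ v ≤ s, anc K (pre G s) v = anc K G v) ∧
    (∀ w ≤ s, ∀ x, (near K (pre G s) w x ↔ near K G w x)) ∧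
    (∀ v ≤ s, ∀ x y, (ng K (pre G s) v x y ↔ ng K G v x y)) ∧
    (∀ v ≤ s, kap K (pre G s) v = kap K G v) ∧ (∀ v ≤ s, lab1 K (pre G s) v = lab1 K G v) := by
  sorry

/-- MODULE ANC. The set in the definition of `anc` is nonempty: if `isAnc v` take `x = v` (the ball
contains `v`), otherwise the negation of the definition of `isAnc` gives `x`. So `anc v` is in the
set. A common point `p` of `Bl x = bal G x ρ` and `Bl v = bal G v ρ` (`ρ = rr (ci v)`, the same for
`x` as `cl x = cl v`) has `nr G x x p ρ`, so `nr G v x p ρ` (`nr_time`), and `nr G v v p ρ`. -/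
theorem anc_spec (K : ℕ) (G : SimpleGraph ℕ) (v : ℕ) :
    anc K G v ≤ v ∧ isAnc K G (anc K G v) ∧ cl K G (anc K G v) = cl K G v ∧
      nr G v v (anc K G v) (2 * rr (ci K G v)) := by
  sorry

/-- MODULE SEP. Suppose `anc u ≠ anc v`. `near v (anc v)` by `hA`; `near v (anc u)`: `hA` for
`u` gives `nr G u u (anc u) (2ρ)`, `nr_time`, and `nr_adj` for the edge `u v`. So `ng v (anc u) (anc v)`
(`w = v`). The set in the definition of `kap v` is nonempty (a number different from the finitely many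
`kap u`, `u < v`), so `kap v` is in it (`Nat.sInf_mem`), hence `kap u ≠ kap v`. Contradiction. -/
theorem lab1_anc {K : ℕ} {G : SimpleGraph ℕ}
    (hA : ∀ v, anc K G v ≤ v ∧ isAnc K G (anc K G v) ∧ cl K G (anc K G v) = cl K G v ∧
      nr G v v (anc K G v) (2 * rr (ci K G v))) {u v : ℕ} (huv : u < v) (hadj : G.Adj u v)
    (hl : lab1 K G u = lab1 K G v) : anc K G u = anc K G v := by
  sorry

/-- MODULE GRO. If `K * |bal v (rr i)| < |bal v (rr (i+1))|` for all `i < d` then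
`n ≤ K ^ d < |bal v (rr d)|` or (`d = 0`, `n ≤ 1`, handle separately: then `v = 0`, all balls have
one element) contradiction: `|bal v (rr d)| ≤ v + 1 ≤ n` (`bal_sub`). In detail: by induction
`K ^ i + (if i = 0 then 0 else 1) ≤ |bal v (rr i)|` for `i ≤ d`, e.g. `K ^ i ≤ |bal|` and `<` for
`0 < i`. The hypothesis `0 < d` is given. Then `ci v` is the least such `i` (`Nat.sInf_mem`). -/
theorem ci_spec {K d n : ℕ} (hd : 0 < d) (hn : n ≤ K ^ d) (G : SimpleGraph ℕ) {v : ℕ}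
    (hv : v < n) : ci K G v < d ∧
      (bal G v (rr (ci K G v + 1))).ncard ≤ K * (bal G v (rr (ci K G v))).ncard := by
  sorry

/-- MODULE DEG (degrees in the graph of the anchors). Let `S` be the set on the left, a subset of
`Iic v`, so finite. If `S` is empty: `0 + 2 ≤ 2 K` as `1 ≤ K`. Otherwise let
`w ≤ v` be the largest `w ≤ v` with `near w x` and `near w y` for some `y ≠ x` (so `ng w x y`); every
`y ∈ S` has `ng w x y`: there is `w' ≤ w` with `near w' x`, `near w' y`. Put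
`ρ = rr (ci w)`, `j = cj w`. `cl x = cl w = cl w' = cl y`. At time `w`: `nr w w x (2ρ+1)` and
`nr w x y ((2ρ+1) + (2ρ+1))` (`nr_time` from `w'`), so `nr w w y (6ρ+3)`, and
`Bl y ⊆ bal G w (7ρ+3) = bal G w (rr (ci w + 1))`; also `Bl x ⊆ bal G w (7ρ+3)`. The sets `Bl y`
(`y ∈ S`) and `Bl x` are pairwise disjoint (`isAnc` of the larger one and the same class) and have
at least `2 ^ j` elements (`Nat.pow_log_le_self`, `cj y = cj w`). So
`(|S| + 1) 2 ^ j ≤ |bal w (rr (ci w + 1))| ≤ K |bal w (rr (ci w))| < K 2 ^ (j+1)`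
(`Nat.lt_pow_succ_log_self`), so `|S| + 1 < 2 K`. (Use `Finset.card_biUnion` or
`Set.ncard` of a union over a finset.) -/
theorem deg_bound {K : ℕ} (hK : 1 ≤ K) {G : SimpleGraph ℕ} {v : ℕ}
    (hg : ∀ w ≤ v, (bal G w (rr (ci K G w + 1))).ncard ≤ K * (bal G w (rr (ci K G w))).ncard)
    (x : ℕ) : {y | y ≠ x ∧ ng K G v x y}.Finite ∧
      {y | y ≠ x ∧ ng K G v x y}.ncard + 2 ≤ 2 * K := by
  sorry

/-- MODULE HIS (number of colours used for one anchor). Strong induction on `v`. Let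
`H v = {c | ∃ u ≤ v, anc u = x ∧ kap u = c}`, `N v = {y | y ≠ x ∧ ng v x y}` (finite, `hfin`;
`N v' ⊆ N v` for `v' ≤ v`). If no `u ≤ v` has `anc u = x` then `H v = ∅`. Otherwise let `w` be
the largest such `u ≤ v`; `H v = H w`, `N w ⊆ N v`, so we may assume `w = v`, `anc v = x`. If no
`u < v` has `anc u = x`, `H v` has one element. Otherwise let `v'` be the largest such `u < v`;
`H v = H v' ∪ {kap v}`. If `kap v = kap v'` then `H v = H v'`, done by induction. Suppose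
`kap v ≠ kap v'`. Both `kap v` and `kap v'` are minima (`Nat.sInf_mem`, `Nat.sInf_le`) of the sets
`F v = {c | ∀ u < v, cl u = cl v → anc u ≠ x → ng v (anc u) x → kap u ≠ c}` and `F v'`. Claim: there is
`y ∈ N v \ N v'`. If `N v = N v'` we show `kap v' ∈ F v` and `F v ⊆ F v'` (this
gives `kap v ≤ kap v'` and `kap v' ≤ kap v`). `F v ⊆ F v'`: `u < v' < v`, `ng v' .. → ng v ..`,
`cl v' = cl x = cl v` (`hA`). `kap v' ∈ F v`: let `u < v`, `cl u = cl v`, `y = anc u ≠ x`, `ng v y x`, so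
`y ∈ N v = N v'`, i.e. `ng v' x y`. If `u < v'`, then `kap u ≠ kap v'` as `kap v' ∈ F v'`. `u = v'` is
impossible (`anc u ≠ x`). If `v' < u`: `kap u` is in its own set: `v' < u`, `cl v' = cl u`,
`anc v' = x ≠ y`, `ng u x y` (as `v' ≤ u`), so `kap v' ≠ kap u`. So `|N v| ≥ |N v'| + 1` and
`|H v| ≤ |H v'| + 1 ≤ 1 + |N v'| + 1`. -/
theorem his_bound {K : ℕ} {G : SimpleGraph ℕ}
    (hA : ∀ v, anc K G v ≤ v ∧ isAnc K G (anc K G v) ∧ cl K G (anc K G v) = cl K G v ∧
      nr G v v (anc K G v) (2 * rr (ci K G v)))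
    (x v : ℕ) (hfin : ∀ u ≤ v, {y | y ≠ x ∧ ng K G u x y}.Finite) :
    {c | ∃ u ≤ v, anc K G u = x ∧ kap K G u = c}.Finite ∧
    {c | ∃ u ≤ v, anc K G u = x ∧ kap K G u = c}.ncard ≤
      1 + {y | y ≠ x ∧ ng K G v x y}.ncard := by
  sorry

/-- MODULE KAP. `kap v` is the least number outside the finite set
`B = {c | ∃ u < v, cl u = cl v ∧ anc u ≠ anc v ∧ ng v (anc u) (anc v) ∧ kap u = c}`, so
`kap v ≤ |B|`. `B` is contained in the union of the sets `{c | ∃ u ≤ v, anc u = y ∧ kap u = c}` over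
`y ∈ N = {y | y ≠ x ∧ ng v x y}`, `x = anc v` (`ng` is symmetric). By `hD` `|N| + 2 ≤ 2 K` and
by `hH` each has at most `2 K - 1` elements. So `|B| ≤ (2 K - 2) (2 K - 1) < 4 K ^ 2`. -/
theorem kap_bound {K : ℕ} (hK : 1 ≤ K) {G : SimpleGraph ℕ} {v : ℕ}
    (hD : ∀ x, {y | y ≠ x ∧ ng K G v x y}.Finite ∧
      {y | y ≠ x ∧ ng K G v x y}.ncard + 2 ≤ 2 * K)
    (hH : ∀ x, {c | ∃ u ≤ v, anc K G u = x ∧ kap K G u = c}.Finite ∧
      {c | ∃ u ≤ v, anc K G u = x ∧ kap K G u = c}.ncard ≤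
      1 + {y | y ≠ x ∧ ng K G v x y}.ncard) : kap K G v < 4 * K ^ 2 := by
  sorry

/-- MODULE TAU (dyadic time stamps). `fn v` is in its set (`Nat.sInf_mem`). The set of exponents
contains `0` (`y = fn v`) and is bounded (`2 ^ e ≤ y + 1 ≤ v < 2 ^ v`), so `te v` is in it
(`Nat.sSup_mem`) and `2 ^ te v ≤ v`, i.e. `te v ≤ log2 v`. So `tau v` is in its set. -/
theorem tau_spec {H : SimpleGraph ℕ} {v : ℕ} (h : hasp H v) :
    (fn H v < v ∧ H.Adj v (fn H v)) ∧ fn H v ≤ tau H v ∧ tau H v < v ∧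
      2 ^ te H v ∣ tau H v + 1 ∧ te H v ≤ Nat.log 2 v ∧
      (∀ e y, fn H v ≤ y → y < v → 2 ^ e ∣ y + 1 → e ≤ te H v) := by
  sorry

/-- MODULE TEQ. `v` has the earlier neighbour `u`, so `hasp v`, `lab2 v ≥ 1`, so `hasp u` and
`te u = te v =: e`. `fn v ≤ u` (`Nat.sInf_le`). Put `y = tau u`, `y' = tau v`: `fn u ≤ y < u`,
`fn v ≤ y' < v`, `2 ^ e` divides `y + 1` and `y' + 1`. Suppose `y ≠ y'`. Write
`y + 1 = 2 ^ e a`, `y' + 1 = 2 ^ e b`. `a`, `b` are odd (otherwise `2 ^ (e+1)` divides, against the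
maximality in `hT`). Let `z + 1 = 2 ^ e (min a b + 1)`, strictly between; `2 ^ (e+1)` divides
`z + 1`. `z` is strictly between `y` and `y'`. If `z < u` and `fn u ≤ z`: contradiction to the
maximality for `u`. If `fn v ≤ z` (and `z < v`): contradiction for `v`. One of these holds: if `z ≥ u`
then `z ≥ u ≥ fn v`, and `z < y' < v` because `y < u ≤ z`. If `z < u` and `z < fn u` then
`z < y`, so `y' < z`, `fn v ≤ y' < z < u < v`. Finally `te v ≤ log2 v` gives the bound. Also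
`tau v < u`, because `tau v = tau u < u`. -/
theorem tau_eq {H : SimpleGraph ℕ}
    (hT : ∀ v, hasp H v → (fn H v < v ∧ H.Adj v (fn H v)) ∧ fn H v ≤ tau H v ∧ tau H v < v ∧
      2 ^ te H v ∣ tau H v + 1 ∧ te H v ≤ Nat.log 2 v ∧
      (∀ e y, fn H v ≤ y → y < v → 2 ^ e ∣ y + 1 → e ≤ te H v)) {u v : ℕ} (huv : u < v)
    (hadj : H.Adj u v) (hl : lab2 H u = lab2 H v) :
    hasp H u ∧ hasp H v ∧ tau H u = tau H v := by
  sorry

/-- MODULE LO2 (locality of the second label). `hasp`, `fn`, `te`, `tau`, `lab2` depend only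
on the adjacencies of `v` with smaller vertices. -/
theorem loc2 {H : SimpleGraph ℕ} {s : ℕ} :
    (∀ v ≤ s, (hasp (pre H s) v ↔ hasp H v)) ∧ (∀ v ≤ s, fn (pre H s) v = fn H v) ∧
    (∀ v ≤ s, te (pre H s) v = te H v) ∧ (∀ v ≤ s, tau (pre H s) v = tau H v) ∧
    (∀ v ≤ s, lab2 (pre H s) v = lab2 H v) := by
  sorry

end Pool.Agent.Helper63.PG
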