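import Pool.Agent.Helper63.PG.Basic

/-! # Statements of the modules, part M: one layer

All sequences are functions `ℕ → V`; `Hol G f L`: `f 0..f (L-1)` is an induced cycle, `IP G f m`:
`f 0..f m` is an induced path (Basic.lean).  Tools in Basic.lean: `IP.cat`, `IP.rev`, `IP.sub`,
`Hol.arc`, `Hol.around`, `Hol.rot`, `Hol.rev`, `Hol.splice`, `NOH.apex` (a vertex seeing exactly the two
ends of an induced path with `m ≥ 2` edges: `m` is even), `NOH.even` (a `Hol` of length `≥ 4` has even
length), `GIP.sub`, `GIP.rev`.  No injectivity is ever needed.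
-/

set_option autoImplicit false

namespace Pool.Agent.Helper63.PG

variable {V : Type*}

/-- MODULE PRU (the pair rule). Proof. Let `s ≠ t` be in `T`.
(a) There are `n ≥ 2` and `q : ℕ → V` with `q 0 = s`, `q n = t`, `q i ∈ R` for `0 < i < n` and
`IP G q n`: by `tR` and `conn` there is a sequence from `s` to `t`, interior in `R`, consecutive terms
adjacent, interior nonempty; take one with `n` minimal. `n = 1` is impossible by `stab` and `n = 0` by
`s ≠ t`. If `q i ~ q j` with `i + 1 < j ≤ n` then `fun m => if m ≤ i then q m else q (m + (j-i-1))`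
is shorter. (b) Put `π s t := n % 2` (choose, e.g. with `Classical.choice`/`if`). Let `f, m` be as in
`PRule`. Then `q 0, f 0, ..., f m, q n, q (n-1), ..., q 1` is a `Hol` of length `m + n + 2`: `q i`
with `0 < i < n` is in `R`, so it has no neighbour among the `f j ∈ U` (`anti`). If `m + n` is odd
the length is odd and `≥ 5`, contradiction to `NOH`. So `m % 2 = n % 2`. -/
theorem Lay.pr {G : SimpleGraph V} {R T U : Set V} (h : Lay G R T U) : ∃ π, PRule G T U π := by
  sorry

/-- MODULE N1M. Let `c, L` be as in `N1` and suppose that `w ∈ T` sees exactly `c p, c (p+1)`.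
Rotate (`Hol.rot`) so that `w` sees exactly the indices `0` and `L - 1`. All neighbours of `w` are in
`U` (T stable), so `c 0, c (L-1) ∈ U`. Take a sequence `r 0 = w, r 1, ..., r m` (`m ≥ 1`), `r i ∈ R`
for `1 ≤ i ≤ m`, consecutive terms adjacent, such that `r m` has a neighbour among the `c i ∈ T`, with
`m` minimal (exists by `tR`, `conn`). Then `r 1, ..., r m` is an induced path, `w` sees of it only
`r 1` and for `i < m` `r i` has no neighbour among the `c j` (those in `U` by `anti`, those in `T` by
minimality); `r m` sees only indices `j` with `c j ∈ T`. Let `i ≤ j` be the first and the last index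
with `r m ~ c i`, `r m ~ c j`. So `1 ≤ i`, `j ≤ L - 2`.
Apex `w` over the path `r 1, ..., r m, c i, c (i-1), ..., c 0`: `m + i` is even.
Apex `w` over the path `r 1, ..., r m, c j, c (j+1), ..., c (L-1)`: `m + (L - 1 - j)` is even.
If `i = j`: `L` is even (`NOH.even`), the sum of the three even numbers `m + i`, `m + L - 1 - i`, `L`
is odd, contradiction. If `i < j` then `i + 2 ≤ j` (T stable) and `r m` is an apex over the path
`c i, ..., c 0, c (L-1), ..., c j` (`Hol.around`), so `i + (L - 1 - j) + 1` is even; the sum of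
the three numbers is `2 m + 2 i + 2 (L - 1 - j) + 1`, odd, contradiction. -/
theorem Lay.n1 {G : SimpleGraph V} {R T U : Set V} (h : Lay G R T U) : N1 G T U := by
  sorry

/-- MODULE SPM. Strong induction on the number of `i < L` with `c i ∈ U`. Let `c, L` be as in
`SPlus` and suppose all `U`-`U` edges except the closing one have a common neighbour in `T`.
Case 1: there is `i` with `i + 1 < L`, `c i, c (i+1) ∈ U`. Let `w ∈ T` be a common neighbour. Let
`p` be the first and `q` the last index seen by `w`: `p ≤ i`, `i + 1 ≤ q`. All vertices seen by `w` are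
in `U` (T stable). Not (`p = 0` and `q = L - 1`), as `c 0`, `c (L-1)` have no common neighbour. If
`q = p + 1`, contradiction to `N1`. Otherwise `q = p + δ + 2` and
`splice c p w δ` (`Hol.splice`) is a `Hol` of length `L - δ ≥ 4`, contains
`w ∈ T`, its vertices are in `U` or `T`, its first and last vertex are `c 0`, `c (L-1)`, its
`U`-`U` edges are edges of `c` (note `w ∈ T`, `T ∩ U = ∅` by `tR` and `anti`), and it has less
indices in `U`, because one of `i, i+1` is strictly between `p` and `q` and was removed.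
Case 2: there is no such `i`. Two consecutive vertices are not both in `T`. So `c i ∈ T` iff `i` is
odd, for `i < L`; as `c (L-1) ∈ U`, `L` is odd, contradiction to `NOH.even`. -/
theorem Lay.sp {G : SimpleGraph V} {R T U : Set V} (h : Lay G R T U) (hN : N1 G T U) :
    SPlus G T U := by
  sorry

/-- MODULE LSM. Let `x, a` be as in `LemS` (so `a + 1` is even, `a` odd, by `NOH.even`).
(1) Let `w ∈ T` see some index, `p` the first and `q` the last index `≤ a` seen by `w`. Claim:
`q ≤ p + 1`. Otherwise `q = p + δ + 2`, not (`p = 0` and `q = a`) as `x 0, x a` have no common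
neighbour, and `splice x p w δ` (`Hol.splice`) is a `Hol` of length `a + 1 - δ` containing `w ∈ T`,
first vertex `x 0`, last vertex `x a`, all other `U`-`U` edges are edges of the path: contradiction
to `SPlus` (`T ∩ U = ∅` by `tR` and `anti`).
(2) It remains to exclude `q = p`. Choose `m < a` with `p ∉ {m, m+1}` (`m = 0` if `2 ≤ p`,
otherwise `m = 2`), and `t ∈ T` adjacent to `x m`, `x (m+1)`; by (1) `t` sees exactly the indices
`m, m+1`; `t ≠ w`. If `p < m`: the paths `x p, ..., x m` (length `m - p`) and
`x p, ..., x 0, x a, ..., x (m+1)` (`Hol.around`, length `p + (a - (m+1)) + 1`) both satisfy the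
hypotheses of `PRule` for `w, t`, so `m - p` and `p + a - m` have the same parity: `a` even,
contradiction. If `m + 1 < p`: the paths `x p, x (p-1), ..., x (m+1)` (length `p - m - 1`) and
`x p, ..., x a, x 0, ..., x m` (length `(a - p) + 1 + m`; the reverse of `Hol.around`): again the sum
of the lengths is `a`, odd, contradiction. -/
theorem Lay.ls {G : SimpleGraph V} {R T U : Set V} (h : Lay G R T U) (hS : SPlus G T U)
    {π : V → V → ℕ} (hP : PRule G T U π) : LemS G T U := by
  sorry

/-- MODULE CLO. If no `t ∈ T` sees `x, y, z`: take `s ∈ T` seeing `x, y` and `t ∈ T` seeing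
`y, z`; `s` does not see `z`, `t` does not see `x`, `s ≠ t`. `PRule` for the path `y` (`m = 0`) gives
`π s t = 0`, `PRule` for the path `x, z` (`m = 1`) gives `π s t = 1`. -/
theorem closure {G : SimpleGraph V} {T U : Set V} {π : V → V → ℕ} (hP : PRule G T U π)
    {x y z : V} (hx : x ∈ U) (hy : y ∈ U) (hz : z ∈ U) (hxz : G.Adj x z)
    (h1 : Cm G T x y) (h2 : Cm G T y z) : ∃ t ∈ T, G.Adj t x ∧ G.Adj t y ∧ G.Adj t z := by
  sorry

/-- MODULE CLQ. Induction on the number of elements of `Q`. One element: `sees`. Two elements: by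
definition of `Gam`. At least three: let `a ≠ b` be in `Q`, `c ∈ Q` different from `a, b`; by
induction there are `s, t ∈ T`, `s` seeing all of `Q \ {a}`, `t` seeing all of `Q \ {b}`. If `s` sees
`a` or `t` sees `b` we are done. Otherwise `s ≠ t` and `PRule` for the path `c` (`m = 0`) gives
`π s t = 0` and for the path `b, a` (`s ~ b`, `t ~ a`, `m = 1`) gives `π s t = 1`. -/
theorem clique_common {G : SimpleGraph V} {T U : Set V} {π : V → V → ℕ} (hP : PRule G T U π)
    (hs : ∀ u ∈ U, ∃ t ∈ T, G.Adj t u) (Q : Finset V) (hne : Q.Nonempty) (hU : ∀ u ∈ Q, u ∈ U)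
    (hQ : ∀ u ∈ Q, ∀ v ∈ Q, u ≠ v → (Gam G T U).Adj u v) : ∃ t ∈ T, ∀ u ∈ Q, G.Adj t u := by
  sorry

/-- MODULE QLM (the main point). `x 0..x l` is an induced path of `Γ`, `(c, d)` is a chord of `G`
and the only one inside `[c, d]`.
(0) `c + 3 ≤ d` by `closure` (a chord `(c, c+2)` would give `Cm (x c) (x (c+2))`). The sequence
`x c, ..., x d` is a `Hol` of length `d - c + 1`, so `d - c` is odd. `LemS` applies to it (its
closing edge has no common neighbour, because `(c, d)` is not an edge of `Γ`): every `w ∈ T` which sees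
one of `x c..x d` sees exactly `x i, x (i+1)` for some `c ≤ i < d`. Let `t_i ∈ T` see `x i, x (i+1)`
(`c ≤ i < d`); it sees exactly these two in `[c, d]`.
Downward strong induction on `j < c` : assume (1), (2) for all `j'` with `j < j' < c`.
Let `u ∈ T` see `x j, x (j+1)`. Then `u` sees `x c, x (c+1)`: by (2) for `j + 1` if `j + 1 < c`, and
if `j + 1 = c` because `u` sees `x c` and by LemS one more neighbour, which is `x (c+1)`. So `u` sees
exactly `x c, x (c+1)` in `[c, d]`.
(1) for `j`: suppose `x j ~ x m`, `j + 2 ≤ m ≤ d`, `m` minimal.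
- `m = c` or `m = c + 1`: `u` is a common neighbour of `x j, x m`: `(j, m)` is an edge of `Γ`, no.
- `m < c`: take `s ∈ T` seeing `x m` (and `x (m+1)`); by (2) for `m`, `s` sees `x c`. `u` does not see
  `x m`, `s` does not see `x j` (otherwise `(j, m)` in `Γ`). So `s ≠ u`; `PRule` for `s, u` and the
  path `x c` gives `π s u = 0`, for the path `x m, x j` gives `π s u = 1`.
- `c + 2 ≤ m ≤ d - 1`: `t_(m-1)`, `t_m` do not see `x j` (otherwise `(j, m)` in `Γ`), `u` sees
  neither `x m`. `PRule` for `u, t_(m-1)`: path `x j, x m` gives `π = 1`, path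
  `x (c+1), ..., x (m-1)` gives `π = (m - 2 - c) % 2`. `PRule` for `u, t_m`: path `x j, x m`: `π = 1`,
  path `x (c+1), ..., x m`: `π = (m - 1 - c) % 2`. Contradiction.
- `m = d`: `u` is an apex over the path `x j, x d, x (d-1), ..., x (c+1)` (`x j` sees only `x d` of
  it because `m` was minimal), so its length `d - c` is even (`NOH.apex`), contradiction.
So (1) holds for all `j' ∈ [j, c)`: the sequence `x j, ..., x d` has only the chord `(c, d)`.
(2) for `j`: (2a) let `v ∈ T` see `x j` and some vertex of `x c..x d`, so exactly `x i, x (i+1)` with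
`c ≤ i < d`. Claim `i = c`. Suppose `c < i`. Let `j'` be the last index in `[j, c)` seen by `v`. `v`
is an apex over `x j', ..., x i` (length `i - j'`, at least `2`) and over
`x j', ..., x c, x d, x (d-1), ..., x (i+1)` (length `(c - j') + 1 + (d - i - 1)`, at least `2`), so
both are even; the sum is `c + d - 2 j'`, which is odd. Contradiction.
(2b) let `v ∈ T` see `x j` and nothing in `[c, d]`. By (2) for `j' ∈ (j, c)` `v` sees nothing in
`(j, c)`. Let `t = t_(c+1)` (`c + 2 ≤ d`); it sees exactly `x (c+1), x (c+2)` in `[c, d]`, nothing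
in `(j, c)` by (2) (it does not see `x c`), and not `x j` by (2a). `v ≠ t`. `PRule` for `v, t`:
path `x j, ..., x (c+1)` (length `c + 1 - j`) and path `x j, ..., x c, x d, x (d-1), ..., x (c+2)`
(length `(c - j) + 1 + (d - c - 2)`); the sum is `c + d - 2 j`, odd (as `d - c` is odd), contradiction.
-/
theorem qleft {G : SimpleGraph V} {T U : Set V} {π : V → V → ℕ} (hN : NOH G)
    (hP : PRule G T U π) (hS : LemS G T U) {x : ℕ → V} {l c d : ℕ} (hx : GIP G T U x l)
    (hcd : c + 2 ≤ d) (hd : d ≤ l) (hadj : G.Adj (x c) (x d))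
    (hmin : ∀ i j, c ≤ i → i + 2 ≤ j → j ≤ d → G.Adj (x i) (x j) → i = c ∧ j = d) :
    LeftExt G T x c d := by
  sorry

/-- MODULE QTM. `x 0..x l` is an induced path of `Γ`; it has at most one chord in `G`.
`hQ` is the statement of `qleft`. Suppose there are two chords.
Take a chord `(c, d)` with `d - c` minimal. Then `hmin` of `hQ` holds; as in `qleft` (0)
`c + 3 ≤ d` (closure, a hypothesis here), `d - c` is odd and LemS applies to `x c..x d`. `hQ` gives
the left extension. `hQ` for the reversed sequence `x (l - i)` (`GIP.rev`), `c' = l - d`,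
`d' = l - c` gives the right extension: for `d < j ≤ l` (1') `x j` has no neighbour in
`x c, ..., x (j-2)`, (2') every `t ∈ T` seeing `x j` sees `x d` and `x (d-1)`. So every chord other
than `(c, d)` is `(i, j)` with `i < c`, `d < j`. Suppose such a chord exists and take one with `j - i`
minimal: between `i` and `j` the only chords are `(c, d)` and `(i, j)`.
Let `u ∈ T` see `x i, x (i+1)`; by (2) `u` sees `x c, x (c+1)`, and by LemS exactly these in `[c, d]`;
`u` sees no `x j'` with `d < j' ≤ l`, otherwise it would see `x d` (but `c + 1 < d`). Let `v ∈ T` see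
`x j, x (j-1)`; symmetrically `v` sees exactly `x (d-1), x d` in `[c, d]` and no `x i'`, `i' < c`.
(a) `u` is an apex over the path `x (c+1), ..., x j, x i`: length `j - c` is even.
(b) `v` is an apex over `x (d-1), x (d-2), ..., x i, x j`: length `d - i` even.
(c) If `i + 1 < c`: `u` is an apex over `x c, x d, x (d+1), ..., x j, x i`: length
`1 + (j - d) + 1` even; but `j - c` even and `d - c` odd: contradiction. So `i + 1 = c`.
(d) symmetric: if `d + 1 < j`: `v` is an apex over `x d, x c, x (c-1), ..., x i, x j`, length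
`1 + (c - i) + 1` even; but `d - i` even, `d - c` odd: contradiction. So `j = d + 1`.
(e) `i = c - 1`, `j = d + 1`. Let `t ∈ T` see `x (c+1), x (c+2)`: it sees exactly these in `[c, d]`,
not `x (c-1)` (otherwise `x c`, by (2)) and not `x (d+1)` (otherwise, by (2'), `x d` and
`x (d-1)`, so `d - 1 = c + 1`; but `d - c` is odd). Take the `u` above. `u ≠ t`. `PRule` for `u, t`:
path `x (c+1)`: `π = 0`; path `x (c-1), x (d+1), x d, ..., x (c+2)`: length
`1 + 1 + (d - c - 2) = d - c`, odd. Contradiction. -/
theorem thQ {G : SimpleGraph V} {T U : Set V} {π : V → V → ℕ} (hN : NOH G)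
    (hP : PRule G T U π) (hS : LemS G T U)
    (hC : ∀ x ∈ U, ∀ y ∈ U, ∀ z ∈ U, G.Adj x z → Cm G T x y → Cm G T y z →
      ∃ t ∈ T, G.Adj t x ∧ G.Adj t y ∧ G.Adj t z)
    (hQ : ∀ (x : ℕ → V) (l c d : ℕ), GIP G T U x l → c + 2 ≤ d → d ≤ l → G.Adj (x c) (x d) →
      (∀ i j, c ≤ i → i + 2 ≤ j → j ≤ d → G.Adj (x i) (x j) → i = c ∧ j = d) →
      LeftExt G T x c d)
    {x : ℕ → V} {l : ℕ} (hx : GIP G T U x l) {i j i' j' : ℕ} (hij : i + 2 ≤ j) (hj : j ≤ l)
    (hij' : i' + 2 ≤ j') (hj' : j' ≤ l) (h1 : G.Adj (x i) (x j)) (h2 : G.Adj (x i') (x j')) :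
    i = i' ∧ j = j' := by
  sorry

/-- MODULE GNM. `Γ` has no odd hole. Let `Hol (Gam G T U) f L`, `L` odd, `5 ≤ L`. All `f i` are in
`U`. A chord is a pair `i < j < L` with `i + 2 ≤ j`, not (`i = 0`, `j + 1 = L`), `G.Adj (f i) (f j)`.
- No chord: `Hol G f L`, contradiction to `hN`.
- Exactly one chord `(i, j)`: by `hC` the two arcs have length at least `3` (`j ≥ i + 3` and
  `L - j + i ≥ 3`: otherwise the chord would be an edge of `Γ`). `j - i` and `L - (j - i)`: exactly one
  is even, hence `≥ 4`, and the arc of even length together with the chord is an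
  induced odd cycle of `G` of length `≥ 5` (`f i..f j`, or the rest of the cycle; use `Hol.rot`
  for `Gam` to have `i = 0`), contradiction.
- Two chords: they use at most `4 < L` indices; let `r` be another index; rotate
  (`Hol.rot`) so that `r` becomes `L - 1`; then `f 0..f (L-2)` is an induced path of `Γ` (`GIP`) with
  two different chords, contradiction to `hT` (the statement of `thQ`). -/
theorem gam_noh {G : SimpleGraph V} {T U : Set V} (hN : NOH G)
    (hC : ∀ x ∈ U, ∀ y ∈ U, ∀ z ∈ U, G.Adj x z → Cm G T x y → Cm G T y z →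
      ∃ t ∈ T, G.Adj t x ∧ G.Adj t y ∧ G.Adj t z)
    (hT : ∀ (x : ℕ → V) (l : ℕ), GIP G T U x l → ∀ i j i' j' : ℕ, i + 2 ≤ j → j ≤ l →
      i' + 2 ≤ j' → j' ≤ l → G.Adj (x i) (x j) → G.Adj (x i') (x j') → i = i' ∧ j = j') :
    NOH (Gam G T U) := by
  sorry

/-- MODULE PAR (parity). Claim, by strong induction on `i ≤ m`: if `s ~ f i` then `i % 2 = 0`, and if
`t ~ f i` then `i % 2 = e` where `e = if s = t then 0 else π s t`. (The claim for `i = m` and `t` is the
theorem.) `i = 0`: `s ~ f 0`; if also `t ~ f 0` and `s ≠ t` then `PRule` for the one vertex path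
`f 0` gives `π s t = 0`. For `i > 0` let `i' < i` be the last index `< i` seen by `s` or `t` (exists,
`s ~ f 0`). If `z ∈ {s, t}` sees both `f i'` and `f i` then `i' + 2 ≤ i` (consecutive vertices have no
common neighbour in `T`), `z` sees nothing between, so by `NOH.apex` `i - i'` is even. If
`s ~ f i'`, `t ~ f i`, `s ≠ t` and neither `t ~ f i'` nor `s ~ f i`, then `PRule` for the path
`f i', ..., f i` gives `(i - i') % 2 = π s t`; similarly if `t ~ f i'`, `s ~ f i` (reverse path).
If `s`, `t` both see `f i` (`s ≠ t`), the one vertex path gives `π s t = 0`. Combine. -/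
theorem parity {G : SimpleGraph V} {T U : Set V} {π : V → V → ℕ} (hN : NOH G)
    (hP : PRule G T U π) {f : ℕ → V} {m : ℕ} (hf : IP G f m) (hU : ∀ i ≤ m, f i ∈ U)
    (hd : ∀ i < m, ¬ Cm G T (f i) (f (i + 1))) {s t : V} (hs : s ∈ T) (ht : t ∈ T)
    (h0 : G.Adj s (f 0)) (h1 : G.Adj t (f m)) : m % 2 = 0 ∧ s = t ∨ m % 2 = π s t ∧ s ≠ t := by
  sorry

open Pool.Agent.Helper24.OCM in
/-- MODULE MEY. Vertices of `W` have neighbours in `T`, and adjacent vertices of `W ⊆ U` have no
common neighbour in `T`. Then every odd cycle of length `≥ 5` in `W` has two chords. `hPar` is the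
statement of `parity`. Suppose not. If there is no chord the cycle is a `Hol`, contradiction to `hN`.
So there is exactly one chord. Its ends split the cycle in two arcs, of even length `j` and of odd
length `L - j`; starting the cycle at the right end (`g m = f (a + m)`, `a : ZMod L`) we get
`g : ℕ → V` on `0..L-1` whose adjacent pairs `i < i' < L` are: `i' = i + 1`, `(0, L-1)`, `(0, j)`, with
`j` even, `2 ≤ j`, `j + 3 ≤ L`. If `4 ≤ j`, then `g 0..g j` is a `Hol` of odd length `j + 1 ≥ 5`,
contradiction. If `j = 2`: let `s, t ∈ T` see `g 1`, `g 3`. `hPar` for the path `g 1, g 2, g 3`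
(`m = 2`) and for the path `g 1, g 0, g (L-1), ..., g 3` (`m = L - 2`, odd): contradiction. -/
theorem meyniel_cycle {G : SimpleGraph V} {T U W : Set V} {π : V → V → ℕ} (hN : NOH G)
    (hPar : ∀ (f : ℕ → V) (m : ℕ), IP G f m → (∀ i ≤ m, f i ∈ U) →
      (∀ i < m, ¬ Cm G T (f i) (f (i + 1))) → ∀ s ∈ T, ∀ t ∈ T, G.Adj s (f 0) → G.Adj t (f m) →
      m % 2 = 0 ∧ s = t ∨ m % 2 = π s t ∧ s ≠ t)
    (hWU : W ⊆ U) (hs : ∀ u ∈ U, ∃ t ∈ T, G.Adj t u)
    (hW : ∀ u ∈ W, ∀ v ∈ W, G.Adj u v → ¬ Cm G T u v)
    {L : ℕ} (hodd : Odd L) (h5 : 5 ≤ L) (f : ZMod L → V) (hinj : Function.Injective f)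
    (hfW : ∀ i, f i ∈ W) (hadj : ∀ i, G.Adj (f i) (f (i + 1))) :
    ∃ i j k l : ZMod L, IsChord G f i j ∧ IsChord G f k l ∧ s(i, j) ≠ s(k, l) := by
  sorry

end Pool.Agent.Helper63.PG
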