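import Pool.Agent.Helper63.PG.Basic

/-! # Tools: arcs and detours of a sequence -/

set_option autoImplicit false

namespace Pool.Agent.Helper63.PG

variable {V : Type*}

theorem pr_zero {G : SimpleGraph V} {T U : Set V} {π : V → V → ℕ} (hP : PRule G T U π)
    {s t a : V} (hs : s ∈ T) (ht : t ∈ T) (hst : s ≠ t) (ha : a ∈ U) (h1 : G.Adj s a)
    (h2 : G.Adj t a) : π s t = 0 := by
  have := hP s hs t ht hst (fun _ => a) 0 (IP.single G _) (fun _ _ => ha)
    (fun i hi => ⟨fun _ => by omega, fun _ => h1⟩) (fun i hi => ⟨fun _ => by omega, fun _ => h2⟩)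
  omega

theorem pr_one {G : SimpleGraph V} {T U : Set V} {π : V → V → ℕ} (hP : PRule G T U π)
    {s t a b : V} (hs : s ∈ T) (ht : t ∈ T) (hst : s ≠ t) (ha : a ∈ U) (hb : b ∈ U)
    (hab : G.Adj a b) (h1 : G.Adj s a) (h2 : ¬ G.Adj s b) (h3 : G.Adj t b) (h4 : ¬ G.Adj t a) :
    π s t = 1 := by
  have := hP s hs t ht hst (fun i => if i = 0 then a else b) 1 ?_ ?_ ?_ ?_
  · omega
  · intro i j hij hj
    have : i = 0 := by omega
    subst this
    have : j = 1 := by omega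
    subst this
    show G.Adj a b ↔ _
    exact ⟨fun _ => rfl, fun _ => hab⟩
  · intro i _
    show (if i = 0 then a else b) ∈ U
    split_ifs
    · exact ha
    · exact hb
  · intro i _
    show G.Adj s (if i = 0 then a else b) ↔ _
    split_ifs with h
    · exact ⟨fun _ => h, fun _ => h1⟩
    · exact ⟨fun h' => absurd h' h2, fun h' => absurd h' h⟩
  · intro i _
    show G.Adj t (if i = 0 then a else b) ↔ _
    split_ifs with h
    · exact ⟨fun h' => absurd h' h4, fun h' => by omega⟩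
    · exact ⟨fun _ => by omega, fun _ => h3⟩

/-- `x p, ..., x q` is an induced path -/
def Arc (G : SimpleGraph V) (x : ℕ → V) (p q : ℕ) : Prop :=
  ∀ i j, p ≤ i → i < j → j ≤ q → (G.Adj (x i) (x j) ↔ j = i + 1)

theorem arc_forall {x : ℕ → V} {p q : ℕ} (P : ℕ → V → Prop)
    (h : ∀ a, p ≤ a → a ≤ q → P (a - p) (x a)) (hpq : p ≤ q) : ∀ i ≤ q - p, P i (x (p + i)) := by
  intro i hi
  have := h (p + i) (by omega) (by omega)
  rwa [Nat.add_sub_cancel_left] at this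

theorem Arc.ip {G : SimpleGraph V} {x : ℕ → V} {p q : ℕ} (h : Arc G x p q) :
    IP G (fun i => x (p + i)) (q - p) := by
  intro i j hij hj
  show G.Adj (x (p + i)) (x (p + j)) ↔ _
  rw [h _ _ (by omega) (by omega) (by omega)]
  omega

theorem arc_pr {G : SimpleGraph V} {T U : Set V} {π : V → V → ℕ} (hP : PRule G T U π)
    {x : ℕ → V} {p q : ℕ} (hpq : p ≤ q) (h : Arc G x p q) (hU : ∀ a, p ≤ a → a ≤ q → x a ∈ U)
    {s t : V} (hs : s ∈ T) (ht : t ∈ T) (hst : s ≠ t)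
    (h1 : ∀ a, p ≤ a → a ≤ q → (G.Adj s (x a) ↔ a = p))
    (h2 : ∀ a, p ≤ a → a ≤ q → (G.Adj t (x a) ↔ a = q)) : (q - p) % 2 = π s t := by
  refine hP s hs t ht hst _ _ h.ip ?_ ?_ ?_
  · exact arc_forall (fun _ y => y ∈ U) hU hpq
  · exact arc_forall (fun i y => G.Adj s y ↔ i = 0)
      (fun a ha hb => by rw [h1 a ha hb]; omega) hpq
  · exact arc_forall (fun i y => G.Adj t y ↔ i = q - p)
      (fun a ha hb => by rw [h2 a ha hb]; omega) hpq

theorem arc_apex {G : SimpleGraph V} (hN : NOH G) {x : ℕ → V} {p q : ℕ} (hpq : p + 2 ≤ q)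
    (h : Arc G x p q) {w : V} (h1 : ∀ a, p ≤ a → a ≤ q → (G.Adj w (x a) ↔ a = p ∨ a = q)) :
    Even (q - p) := by
  refine hN.apex h.ip (by omega) (w := w) ?_
  exact arc_forall (fun i y => G.Adj w y ↔ i = 0 ∨ i = q - p)
    (fun a ha hb => by rw [h1 a ha hb]; omega) (by omega)

/-- the sequence `x p, ..., x c, x d, x (d-1), ..., x q` -/
def det (x : ℕ → V) (p c d : ℕ) : ℕ → V := cat (fun i => x (p + i)) (c - p) (fun i => x (d - i))

theorem det_forall {x : ℕ → V} {p c q d : ℕ} (hpc : p ≤ c) (hqd : q ≤ d) (P : ℕ → V → Prop)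
    (h1 : ∀ a, p ≤ a → a ≤ c → P (a - p) (x a))
    (h2 : ∀ b, q ≤ b → b ≤ d → P (c - p + 1 + (d - b)) (x b)) :
    ∀ i ≤ (c - p) + (d - q) + 1, P i (det x p c d i) := by
  intro i hi
  unfold det
  rcases Nat.lt_or_ge (c - p) i with h | h
  · rw [cat_gt h]
    have := h2 (d - (i - (c - p) - 1)) (by omega) (by omega)
    rwa [show c - p + 1 + (d - (d - (i - (c - p) - 1))) = i by omega] at this
  · rw [cat_le h]
    have := h1 (p + i) (by omega) (by omega)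
    rwa [Nat.add_sub_cancel_left] at this

theorem det_ip {G : SimpleGraph V} {x : ℕ → V} {p c q d : ℕ} (hpc : p ≤ c) (hqd : q ≤ d)
    (h1 : Arc G x p c) (h2 : Arc G x q d)
    (h3 : ∀ a b, p ≤ a → a ≤ c → q ≤ b → b ≤ d → (G.Adj (x a) (x b) ↔ a = c ∧ b = d)) :
    IP G (det x p c d) ((c - p) + (d - q) + 1) := by
  refine IP.cat h1.ip ?_ ?_
  · intro i j hij hj
    show G.Adj (x (d - i)) (x (d - j)) ↔ _
    rw [G.adj_comm, h2 _ _ (by omega) (by omega) (by omega)]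
    omega
  · intro i hi j hj
    show G.Adj (x (p + i)) (x (d - j)) ↔ _
    rw [h3 _ _ (by omega) (by omega) (by omega) (by omega)]
    omega

theorem det_pr {G : SimpleGraph V} {T U : Set V} {π : V → V → ℕ} (hP : PRule G T U π)
    {x : ℕ → V} {p c q d : ℕ} (hpc : p ≤ c) (hqd : q ≤ d) (h1 : Arc G x p c) (h2 : Arc G x q d)
    (h3 : ∀ a b, p ≤ a → a ≤ c → q ≤ b → b ≤ d → (G.Adj (x a) (x b) ↔ a = c ∧ b = d))
    (hU1 : ∀ a, p ≤ a → a ≤ c → x a ∈ U) (hU2 : ∀ b, q ≤ b → b ≤ d → x b ∈ U)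
    {s t : V} (hs : s ∈ T) (ht : t ∈ T) (hst : s ≠ t)
    (hs1 : ∀ a, p ≤ a → a ≤ c → (G.Adj s (x a) ↔ a = p))
    (hs2 : ∀ b, q ≤ b → b ≤ d → ¬ G.Adj s (x b))
    (ht1 : ∀ a, p ≤ a → a ≤ c → ¬ G.Adj t (x a))
    (ht2 : ∀ b, q ≤ b → b ≤ d → (G.Adj t (x b) ↔ b = q)) :
    ((c - p) + (d - q) + 1) % 2 = π s t := by
  refine hP s hs t ht hst _ _ (det_ip hpc hqd h1 h2 h3) ?_ ?_ ?_
  · exact det_forall hpc hqd (fun _ y => y ∈ U) hU1 hU2
  · exact det_forall hpc hqd (fun i y => G.Adj s y ↔ i = 0)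
      (fun a ha hb => by rw [hs1 a ha hb]; omega)
      (fun b ha hb => ⟨fun h => absurd h (hs2 b ha hb), fun h => by omega⟩)
  · exact det_forall hpc hqd (fun i y => G.Adj t y ↔ i = (c - p) + (d - q) + 1)
      (fun a ha hb => ⟨fun h => absurd h (ht1 a ha hb), fun h => by omega⟩)
      (fun b ha hb => by rw [ht2 b ha hb]; omega)

theorem det_apex {G : SimpleGraph V} (hN : NOH G) {x : ℕ → V} {p c q d : ℕ} (hpc : p ≤ c)
    (hqd : q ≤ d) (h1 : Arc G x p c) (h2 : Arc G x q d)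
    (h3 : ∀ a b, p ≤ a → a ≤ c → q ≤ b → b ≤ d → (G.Adj (x a) (x b) ↔ a = c ∧ b = d))
    (h4 : 1 ≤ (c - p) + (d - q)) {w : V}
    (hw1 : ∀ a, p ≤ a → a ≤ c → (G.Adj w (x a) ↔ a = p))
    (hw2 : ∀ b, q ≤ b → b ≤ d → (G.Adj w (x b) ↔ b = q)) :
    Even ((c - p) + (d - q) + 1) := by
  refine hN.apex (det_ip hpc hqd h1 h2 h3) (by omega) (w := w) ?_
  exact det_forall hpc hqd (fun i y => G.Adj w y ↔ i = 0 ∨ i = (c - p) + (d - q) + 1)
    (fun a ha hb => by rw [hw1 a ha hb]; omega)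
    (fun b ha hb => by rw [hw2 b ha hb]; omega)

/-- closure (module CLO) -/
theorem closure' {G : SimpleGraph V} {T U : Set V} {π : V → V → ℕ} (hP : PRule G T U π)
    {x y z : V} (hx : x ∈ U) (hy : y ∈ U) (hz : z ∈ U) (hxz : G.Adj x z)
    (h1 : Cm G T x y) (h2 : Cm G T y z) : ∃ t ∈ T, G.Adj t x ∧ G.Adj t y ∧ G.Adj t z := by
  by_contra hcon
  push Not at hcon
  obtain ⟨s, hs, hsx, hsy⟩ := h1
  obtain ⟨t, ht, hty, htz⟩ := h2
  have hsz : ¬ G.Adj s z := hcon s hs hsx hsy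
  have htx : ¬ G.Adj t x := fun h => hcon t ht h hty htz
  have hst : s ≠ t := by
    rintro rfl
    exact hsz htz
  have e1 := pr_zero hP hs ht hst hy hsy hty
  have e2 := pr_one hP hs ht hst hx hz hxz hsx hsz htz htx
  omega

end Pool.Agent.Helper63.PG
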